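import Mathlib

-- part Pool.Agent.Lib.MP_be7f84_co.Entropy
section

/-!
Entropy-type quantities of weighted finite point sets in a product space.
For a finite set S of points with nonnegative weights w, and a set g of coordinates,
mass S w g x is the total weight of points of S that agree with x on g.
-/

open Finset

set_option linter.unusedSectionVars false

namespace Pool.Agent.Lib.MP_be7f84_co

variable {ι α : Type*} [Fintype ι] [DecidableEq ι] [DecidableEq α]

/-- x and y agree on the coordinates in g -/
def agree (g : Finset ι) (x y : ι → α) : Prop := ∀ i ∈ g, x i = y i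

instance (g : Finset ι) (x y : ι → α) : Decidable (agree g x y) := by
  unfold agree; infer_instance

lemma agree_refl (g : Finset ι) (x : ι → α) : agree g x x := fun _ _ => rfl

lemma agree.symm {g : Finset ι} {x y : ι → α} (h : agree g x y) : agree g y x :=
  fun i hi => (h i hi).symm

lemma agree.trans {g : Finset ι} {x y z : ι → α} (h : agree g x y) (h' : agree g y z) :
    agree g x z := fun i hi => (h i hi).trans (h' i hi)

lemma agree.mono {g g' : Finset ι} {x y : ι → α} (hg : g ⊆ g') (h : agree g' x y) :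
    agree g x y := fun i hi => h i (hg hi)

lemma agree_empty (x y : ι → α) : agree ∅ x y := fun i hi => absurd hi (by simp)

lemma agree_univ {x y : ι → α} : agree univ x y ↔ x = y :=
  ⟨fun h => funext fun i => h i (mem_univ i), fun h => h ▸ agree_refl _ _⟩

lemma agree_singleton {i : ι} {x y : ι → α} : agree {i} x y ↔ x i = y i := by
  simp [agree]

lemma agree_insert {i : ι} {g : Finset ι} {x y : ι → α} :
    agree (insert i g) x y ↔ x i = y i ∧ agree g x y := by
  simp [agree]

/-- total weight of the points of S agreeing with x on g -/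
noncomputable def mass (S : Finset (ι → α)) (w : (ι → α) → ℝ) (g : Finset ι) (x : ι → α) : ℝ :=
  ∑ y ∈ S, if agree g x y then w y else 0

/-- the negative-entropy functional -/
noncomputable def LL (S : Finset (ι → α)) (w : (ι → α) → ℝ) (g : Finset ι) : ℝ :=
  ∑ x ∈ S, w x * Real.log (mass S w g x)

section basic
variable {S : Finset (ι → α)} {w : (ι → α) → ℝ}

lemma mass_congr {g : Finset ι} {x y : ι → α} (h : agree g x y) :
    mass S w g x = mass S w g y := by
  unfold mass
  refine sum_congr rfl fun z _ => ?_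
  have : agree g x z ↔ agree g y z := ⟨fun h' => h.symm.trans h', fun h' => h.trans h'⟩
  simp only [this]

lemma mass_nonneg (hw : ∀ x ∈ S, 0 ≤ w x) (g : Finset ι) (x : ι → α) : 0 ≤ mass S w g x := by
  unfold mass
  refine sum_nonneg fun z hz => ?_
  split_ifs
  · exact hw z hz
  · exact le_rfl

lemma le_mass (hw : ∀ x ∈ S, 0 ≤ w x) (g : Finset ι) {x : ι → α} (hx : x ∈ S) :
    w x ≤ mass S w g x := by
  unfold mass
  have h := single_le_sum (f := fun y => if agree g x y then w y else 0) (s := S)
    (fun z hz => by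
      split_ifs
      · exact hw z hz
      · exact le_rfl) hx
  simpa [agree_refl] using h

lemma mass_pos (hw : ∀ x ∈ S, 0 ≤ w x) (g : Finset ι) {x : ι → α} (hx : x ∈ S) (h : 0 < w x) :
    0 < mass S w g x := lt_of_lt_of_le h (le_mass hw g hx)

lemma mass_anti (hw : ∀ x ∈ S, 0 ≤ w x) {g g' : Finset ι} (hg : g ⊆ g') (x : ι → α) :
    mass S w g' x ≤ mass S w g x := by
  unfold mass
  refine sum_le_sum fun z hz => ?_
  by_cases h : agree g' x z
  · simp [h, h.mono hg]
  · simp only [h, if_false]
    split_ifs
    · exact hw z hz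
    · exact le_rfl

lemma mass_empty (x : ι → α) : mass S w ∅ x = ∑ y ∈ S, w y := by
  simp [mass, agree_empty]

lemma mass_univ {x : ι → α} (hx : x ∈ S) : mass S w univ x = w x := by
  simp [mass, agree_univ, hx]

lemma classSum_le (g : Finset ι) (y : ι → α) :
    (∑ x ∈ S, if agree g x y then w x / mass S w g x else 0) ≤ 1 := by
  have : (∑ x ∈ S, if agree g x y then w x / mass S w g x else 0)
      = mass S w g y / mass S w g y := by
    conv_rhs => rw [show mass S w g y / mass S w g y
      = (∑ x ∈ S, if agree g y x then w x else 0) / mass S w g y from rfl, sum_div]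
    refine sum_congr rfl fun x _ => ?_
    by_cases h : agree g x y
    · simp [h, h.symm, mass_congr h]
    · have h' : ¬ agree g y x := fun h'' => h h''.symm
      simp [h, h']
  rw [this]
  exact div_self_le_one _

/-- Gibbs inequality -/
lemma gibbs (hw : ∀ x ∈ S, 0 ≤ w x) (g : Finset ι) (q : (ι → α) → ℝ)
    (hq : ∀ x ∈ S, 0 < w x → 0 < q x) :
    ∑ x ∈ S, w x * (Real.log (q x) - Real.log (mass S w g x))
      ≤ ∑ x ∈ S, w x * (q x / mass S w g x) - ∑ x ∈ S, w x := by
  rw [← sum_sub_distrib]
  refine sum_le_sum fun x hx => ?_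
  rcases (hw x hx).eq_or_lt with h | h
  · simp [← h]
  · have h1 := mass_pos hw g hx h
    have h2 := hq x hx h
    rw [← Real.log_div h2.ne' h1.ne']
    have := Real.log_le_sub_one_of_pos (div_pos h2 h1)
    nlinarith

lemma sum_mass_ratio_le {v : (ι → α) → ℝ} (hw : ∀ x ∈ S, 0 ≤ w x) (g : Finset ι) :
    ∑ x ∈ S, v x * (mass S w g x / mass S v g x) ≤ ∑ y ∈ S, w y := by
  have : ∑ x ∈ S, v x * (mass S w g x / mass S v g x)
      = ∑ y ∈ S, w y * ∑ x ∈ S, if agree g x y then v x / mass S v g x else 0 := by
    simp only [mul_sum]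
    rw [sum_comm]
    refine sum_congr rfl fun x _ => ?_
    rw [show mass S w g x = ∑ y ∈ S, if agree g x y then w y else 0 from rfl, sum_div, mul_sum]
    refine sum_congr rfl fun y _ => ?_
    split_ifs
    · ring
    · simp
  rw [this]
  refine sum_le_sum fun y hy => ?_
  have := classSum_le (S := S) (w := v) g y
  have := hw y hy
  nlinarith

/-- cross entropy dominates entropy -/
lemma cross_entropy {v : (ι → α) → ℝ} (hw : ∀ x ∈ S, 0 ≤ w x) (hv : ∀ x ∈ S, 0 ≤ v x)
    (hvw : ∀ x ∈ S, 0 < v x → 0 < w x) (g : Finset ι) :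
    LL S v ∅ - LL S v g
      ≤ ∑ x ∈ S, v x * (Real.log (mass S w ∅ x) - Real.log (mass S w g x)) := by
  set V := ∑ y ∈ S, v y with hV
  set W := ∑ y ∈ S, w y with hW
  have hV0 : 0 ≤ V := sum_nonneg hv
  have hW0 : 0 ≤ W := sum_nonneg hw
  have key := gibbs hv g (fun x => mass S w g x * (V / W)) (fun x hx h => by
    have h1 := mass_pos hw g hx (hvw x hx h)
    have h2 := mass_pos hv ∅ hx h
    have h3 := mass_pos hw ∅ hx (hvw x hx h)
    rw [mass_empty] at h2 h3
    positivity)
  have h1 : ∑ x ∈ S, v x * (mass S w g x * (V / W) / mass S v g x) ≤ V := by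
    have : ∑ x ∈ S, v x * (mass S w g x * (V / W) / mass S v g x)
        = (V / W) * ∑ x ∈ S, v x * (mass S w g x / mass S v g x) := by
      rw [mul_sum]; refine sum_congr rfl fun x _ => by ring
    rw [this]
    have h2 := sum_mass_ratio_le (v := v) hw g
    calc V / W * ∑ x ∈ S, v x * (mass S w g x / mass S v g x) ≤ V / W * W :=
          mul_le_mul_of_nonneg_left h2 (by positivity)
      _ ≤ V := by
          rcases hW0.eq_or_lt with h | h
          · rw [← h]; simpa using hV0
          · rw [div_mul_cancel₀ _ h.ne']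
  have h2 : ∑ x ∈ S, v x * (Real.log (mass S w g x * (V / W)) - Real.log (mass S v g x))
      = LL S v ∅ - LL S v g
        - ∑ x ∈ S, v x * (Real.log (mass S w ∅ x) - Real.log (mass S w g x)) := by
    unfold LL
    rw [← sum_sub_distrib, ← sum_sub_distrib]
    refine sum_congr rfl fun x hx => ?_
    rcases (hv x hx).eq_or_lt with h | h
    · simp [← h]
    · have h1 := mass_pos hw g hx (hvw x hx h)
      have h2 := mass_pos hv ∅ hx h
      have h3 := mass_pos hw ∅ hx (hvw x hx h)
      rw [mass_empty] at h2 h3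
      rw [mass_empty, mass_empty, Real.log_mul h1.ne' (by positivity), Real.log_div h2.ne' h3.ne']
      ring
  linarith

lemma submod_aux (hw : ∀ x ∈ S, 0 ≤ w x) (A B : Finset ι) :
    ∑ x ∈ S, w x - ∑ y ∈ S, ∑ z ∈ S, w y * (w z / mass S w (A ∩ B) z) *
        (∑ x ∈ S, if agree A x y ∧ agree B x z then w x / mass S w (A ∪ B) x else 0)
      ≤ LL S w (A ∪ B) + LL S w (A ∩ B) - LL S w A - LL S w B := by
  have key := gibbs hw (A ∪ B) (fun x => mass S w A x * mass S w B x / mass S w (A ∩ B) x)
    (fun x hx h => by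
      have h1 := mass_pos hw A hx h
      have h2 := mass_pos hw B hx h
      have h3 := mass_pos hw (A ∩ B) hx h
      positivity)
  have h2 : ∑ x ∈ S, w x * (Real.log (mass S w A x * mass S w B x / mass S w (A ∩ B) x)
      - Real.log (mass S w (A ∪ B) x))
      = - (LL S w (A ∪ B) + LL S w (A ∩ B) - LL S w A - LL S w B) := by
    unfold LL
    rw [← sum_add_distrib, ← sum_sub_distrib, ← sum_sub_distrib, ← sum_neg_distrib]
    refine sum_congr rfl fun x hx => ?_
    rcases (hw x hx).eq_or_lt with h | h
    · simp [← h]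
    · have h1 := mass_pos hw A hx h
      have h2 := mass_pos hw B hx h
      have h3 := mass_pos hw (A ∩ B) hx h
      rw [Real.log_div (by positivity) h3.ne', Real.log_mul h1.ne' h2.ne']
      ring
  have h3 : ∑ x ∈ S, w x * (mass S w A x * mass S w B x / mass S w (A ∩ B) x / mass S w (A ∪ B) x)
      = ∑ y ∈ S, ∑ z ∈ S, w y * (w z / mass S w (A ∩ B) z) *
        (∑ x ∈ S, if agree A x y ∧ agree B x z then w x / mass S w (A ∪ B) x else 0) := by
    simp only [mul_sum]
    symm
    calc _ = ∑ y ∈ S, ∑ x ∈ S, ∑ z ∈ S, w y * (w z / mass S w (A ∩ B) z) *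
          (if agree A x y ∧ agree B x z then w x / mass S w (A ∪ B) x else 0) :=
            sum_congr rfl fun y _ => sum_comm
      _ = ∑ x ∈ S, ∑ y ∈ S, ∑ z ∈ S, w y * (w z / mass S w (A ∩ B) z) *
          (if agree A x y ∧ agree B x z then w x / mass S w (A ∪ B) x else 0) := sum_comm
      _ = _ := by
        refine sum_congr rfl fun x _ => ?_
        rw [show mass S w A x = ∑ y ∈ S, if agree A x y then w y else 0 from rfl,
          show mass S w B x = ∑ y ∈ S, if agree B x y then w y else 0 from rfl,
          sum_mul_sum, sum_div, sum_div, mul_sum]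
        refine sum_congr rfl fun y _ => ?_
        rw [sum_div, sum_div, mul_sum]
        refine sum_congr rfl fun z _ => ?_
        by_cases h1 : agree A x y
        · by_cases h2 : agree B x z
          · have : mass S w (A ∩ B) x = mass S w (A ∩ B) z :=
              mass_congr (h2.mono inter_subset_right)
            simp only [h1, h2, and_self, if_true, this]
            ring
          · simp [h2]
        · simp [h1]
  linarith

lemma agree_piecewise {A B : Finset ι} {x y z : ι → α} (h1 : agree A x y) (h2 : agree B x z) :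
    agree (A ∪ B) x (A.piecewise y z) := by
  intro i hi
  by_cases h : i ∈ A
  · rw [piecewise_eq_of_mem _ _ _ h]; exact h1 i h
  · rw [piecewise_eq_of_notMem _ _ _ h]
    exact h2 i (by simpa [h] using hi)

/-- submodularity of entropy -/
lemma LL_submod (hw : ∀ x ∈ S, 0 ≤ w x) (A B : Finset ι) :
    LL S w A + LL S w B ≤ LL S w (A ∪ B) + LL S w (A ∩ B) := by
  have key := submod_aux hw A B
  have h1 : ∑ y ∈ S, ∑ z ∈ S, w y * (w z / mass S w (A ∩ B) z) *
        (∑ x ∈ S, if agree A x y ∧ agree B x z then w x / mass S w (A ∪ B) x else 0)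
      ≤ ∑ y ∈ S, w y := by
    refine sum_le_sum fun y hy => ?_
    have h2 : ∑ z ∈ S, w y * (w z / mass S w (A ∩ B) z) *
        (∑ x ∈ S, if agree A x y ∧ agree B x z then w x / mass S w (A ∪ B) x else 0)
        ≤ ∑ z ∈ S, w y * (if agree (A ∩ B) z y then w z / mass S w (A ∩ B) z else 0) := by
      refine sum_le_sum fun z hz => ?_
      have hz0 : 0 ≤ w z / mass S w (A ∩ B) z := div_nonneg (hw z hz) (mass_nonneg hw _ _)
      by_cases h : agree (A ∩ B) z y
      · simp only [h, if_true]
        have h3 : (∑ x ∈ S, if agree A x y ∧ agree B x z then w x / mass S w (A ∪ B) x else 0)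
            ≤ 1 := by
          refine le_trans (sum_le_sum fun x hx => ?_) (classSum_le (S := S) (w := w) (A ∪ B)
            (A.piecewise y z))
          by_cases h4 : agree A x y ∧ agree B x z
          · simp [h4, agree_piecewise h4.1 h4.2]
          · simp only [h4, if_false]
            split_ifs
            · exact div_nonneg (hw x hx) (mass_nonneg hw _ _)
            · exact le_rfl
        have := mul_nonneg (hw y hy) hz0
        nlinarith
      · have h3 : (∑ x ∈ S, if agree A x y ∧ agree B x z then w x / mass S w (A ∪ B) x else 0)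
            = 0 := by
          refine sum_eq_zero fun x _ => ?_
          rw [if_neg]
          rintro ⟨h4, h5⟩
          exact h ((h5.mono inter_subset_right).symm.trans (h4.mono inter_subset_left))
        simp [h3, h]
    refine h2.trans ?_
    rw [← mul_sum]
    have := classSum_le (S := S) (w := w) (A ∩ B) y
    have := hw y hy
    nlinarith
  linarith

lemma LL_anti (hw : ∀ x ∈ S, 0 ≤ w x) {g g' : Finset ι} (hg : g ⊆ g') :
    LL S w g' ≤ LL S w g := by
  unfold LL
  refine sum_le_sum fun x hx => ?_
  rcases (hw x hx).eq_or_lt with h | h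
  · simp [← h]
  · exact mul_le_mul_of_nonneg_left
      (Real.log_le_log (mass_pos hw g' hx h) (mass_anti hw hg x)) h.le

/-- the mutual information between coordinate i and the rest dominates the weight of the
mixed pairs that fall outside S -/
lemma mix_fail (hw : ∀ x ∈ S, 0 ≤ w x) (i : ι) :
    (∑ y ∈ S, ∑ z ∈ S, if Function.update z i (y i) ∈ S then 0 else w y * w z) / (∑ x ∈ S, w x)
      ≤ LL S w univ + LL S w ∅ - LL S w {i} - LL S w (univ.erase i) := by
  have key := submod_aux hw {i} (univ.erase i)
  have e1 : ({i} : Finset ι) ∪ univ.erase i = univ := by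
    ext k; by_cases h : k = i <;> simp [h]
  have e2 : ({i} : Finset ι) ∩ univ.erase i = ∅ := by
    ext k; simp
  rw [e1, e2] at key
  refine le_trans ?_ key
  set W := ∑ x ∈ S, w x with hW
  have hW0 : 0 ≤ W := sum_nonneg hw
  rcases hW0.eq_or_lt with h0 | h0
  · have hz : ∀ x ∈ S, w x = 0 := (sum_eq_zero_iff_of_nonneg hw).1 h0.symm
    rw [← h0]
    simp only [div_zero, zero_sub, Left.nonneg_neg_iff]
    refine le_of_eq (sum_eq_zero fun y hy => sum_eq_zero fun z _ => ?_)
    simp [hz y hy]
  have h1 : W = ∑ y ∈ S, ∑ z ∈ S, w y * w z / W := by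
    simp only [← sum_div, ← mul_sum, ← sum_mul, ← hW]
    field_simp
  rw [le_sub_iff_add_le, sum_div, ← sum_add_distrib]
  conv_rhs => rw [h1]
  refine sum_le_sum fun y hy => ?_
  rw [sum_div, ← sum_add_distrib]
  refine sum_le_sum fun z hz => ?_
  rw [mass_empty, ← hW]
  have hyz : 0 ≤ w y * w z / W := div_nonneg (mul_nonneg (hw y hy) (hw z hz)) hW0
  have hpw : ({i} : Finset ι).piecewise y z = Function.update z i (y i) := piecewise_singleton y z i
  by_cases h : Function.update z i (y i) ∈ S
  · simp only [h, if_true, zero_div, zero_add]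
    have h3 : (∑ x ∈ S, if agree {i} x y ∧ agree (univ.erase i) x z
        then w x / mass S w univ x else 0) ≤ 1 := by
      refine le_trans (sum_le_sum fun x hx => ?_) (classSum_le (S := S) (w := w) univ
        (Function.update z i (y i)))
      by_cases h4 : agree {i} x y ∧ agree (univ.erase i) x z
      · have := agree_piecewise h4.1 h4.2
        rw [e1, hpw] at this
        simp [h4, this]
      · simp only [h4, if_false]
        split_ifs
        · exact div_nonneg (hw x hx) (mass_nonneg hw _ _)
        · exact le_rfl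
    calc w y * (w z / W) * _ ≤ w y * (w z / W) * 1 :=
          mul_le_mul_of_nonneg_left h3 (by rw [← mul_div_assoc]; exact hyz)
      _ = _ := by ring
  · have h3 : (∑ x ∈ S, if agree {i} x y ∧ agree (univ.erase i) x z
        then w x / mass S w univ x else 0) = 0 := by
      refine sum_eq_zero fun x hx => ?_
      rw [if_neg]
      rintro ⟨h4, h5⟩
      have := agree_piecewise h4 h5
      rw [e1, hpw, agree_univ] at this
      exact h (this ▸ hx)
    simp [h3, h]

end basic

end Pool.Agent.Lib.MP_be7f84_co
end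

-- part Pool.Agent.Lib.MP_be7f84_co.Deficiency
section

/-!
The entropy deficiency of a weighted point set with respect to a family G of coordinate sets,
and its superadditivity under splitting along one coordinate.
-/

open Finset

set_option linter.unusedSectionVars false

namespace Pool.Agent.Lib.MP_be7f84_co

variable {ι α : Type*} [Fintype ι] [DecidableEq ι] [DecidableEq α]

/-- the covering and separation hypotheses on the family G -/
structure Cover (G : Finset (Finset ι)) (m σ : ℝ) : Prop where
  deg : ∀ i, m ≤ (#(G.filter (fun g => i ∈ g)) : ℝ)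
  sep : ∀ i j, i ≠ j → σ ≤ (#(G.filter (fun g => i ∈ g ∧ j ∉ g)) : ℝ)
  nonneg : 0 ≤ σ

lemma Cover.zero {G : Finset (Finset ι)} {m σ : ℝ} (h : Cover G m σ) : Cover G m 0 :=
  ⟨h.deg, fun _ _ _ => Nat.cast_nonneg _, le_rfl⟩

lemma sum_ite_const (G : Finset (Finset ι)) (p : Finset ι → Prop) [DecidablePred p] (a : ℝ) :
    (∑ g ∈ G, if p g then a else 0) = (#(G.filter p) : ℝ) * a := by
  rw [← sum_filter, sum_const, nsmul_eq_mul]

/-- Shearer type lemma for abstract submodular functions -/
lemma polymatroid {G : Finset (Finset ι)} {m σ : ℝ} (hG : Cover G m σ) (L : Finset ι → ℝ)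
    (hsub : ∀ A B, L A + L B ≤ L (A ∪ B) + L (A ∩ B)) (hanti : ∀ A B, A ⊆ B → L B ≤ L A)
    (i : ι) (n : ℕ) : ∀ U : Finset ι, i ∉ U → #((univ.erase i) \ U) = n →
      σ * (L U - L (insert i U) + L univ - L (univ.erase i))
        ≤ ∑ g ∈ G, (L U - L (g ∪ U)) - m * (L U - L univ) := by
  induction n with
  | zero =>
    intro U hi hU
    have hU' : U = univ.erase i := by
      rw [card_eq_zero, sdiff_eq_empty_iff_subset] at hU
      refine Subset.antisymm (fun k hk => ?_) hU
      simp only [mem_erase, mem_univ, and_true]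
      rintro rfl; exact hi hk
    have e1 : insert i U = univ := by rw [hU']; exact insert_erase (mem_univ i)
    have e2 : ∑ g ∈ G, (L U - L (g ∪ U)) = ∑ g ∈ G, if i ∈ g then L U - L univ else 0 := by
      refine sum_congr rfl fun g _ => ?_
      split_ifs with h
      · congr 2
        rw [hU']; ext k; by_cases hk : k = i <;> simp [hk, h]
      · have : g ∪ U = U := by
          rw [union_eq_right, hU']
          intro k hk
          simp only [mem_erase, mem_univ, and_true]
          rintro rfl; exact h hk
        rw [this, sub_self]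
    rw [e2, sum_ite_const, e1, ← hU']
    have := hanti U univ (subset_univ _)
    have := hG.deg i
    nlinarith
  | succ n ih =>
    intro U hi hU
    obtain ⟨j, hj⟩ : ((univ.erase i) \ U).Nonempty := by
      rw [← card_pos, hU]; exact Nat.succ_pos _
    have hji : j ≠ i := by simp at hj; exact hj.1
    have hjU : j ∉ U := by simp at hj; exact hj.2
    have hi' : i ∉ insert j U := by simp [hi, hji.symm]
    have hcard : #((univ.erase i) \ insert j U) = n := by
      have : (univ.erase i) \ insert j U = ((univ.erase i) \ U).erase j := by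
        ext k; simp; tauto
      rw [this, card_erase_of_mem hj, hU]; rfl
    have IH := ih (insert j U) hi' hcard
    set μ := L U - L (insert i U) - L (insert j U) + L (insert i (insert j U)) with hμ
    have hμ0 : 0 ≤ μ := by
      have := hsub (insert i U) (insert j U)
      have e1 : insert i U ∪ insert j U = insert i (insert j U) := by
        ext k; simp; tauto
      have e2 : insert i U ∩ insert j U = U := by
        ext k; simp only [mem_inter, mem_insert]
        constructor
        · rintro ⟨h1 | h1, h2 | h2⟩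
          · exact absurd (h2.symm.trans h1) hji
          · exact h2
          · exact h1
          · exact h1
        · exact fun h => ⟨Or.inr h, Or.inr h⟩
      rw [e1, e2] at this
      linarith
    have ha0 : 0 ≤ L U - L (insert j U) := by
      have := hanti U (insert j U) (subset_insert _ _); linarith
    have hterm : ∀ g ∈ G, (L (insert j U) - L (g ∪ insert j U))
        + ((if j ∈ g then L U - L (insert j U) else 0) + (if i ∈ g ∧ j ∉ g then μ else 0))
        ≤ L U - L (g ∪ U) := by
      intro g _
      by_cases hjg : j ∈ g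
      · have : g ∪ insert j U = g ∪ U := by
          ext k; simp only [mem_union, mem_insert]
          constructor
          · rintro (h | h | h)
            · exact Or.inl h
            · exact Or.inl (h ▸ hjg)
            · exact Or.inr h
          · rintro (h | h)
            · exact Or.inl h
            · exact Or.inr (Or.inr h)
        simp [hjg, this]
      · by_cases hig : i ∈ g
        · have := hsub (g ∪ U) (insert i (insert j U))
          have e1 : g ∪ U ∪ insert i (insert j U) = g ∪ insert j U := by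
            ext k; simp only [mem_union, mem_insert]
            constructor
            · rintro ((h | h) | h | h | h)
              · exact Or.inl h
              · exact Or.inr (Or.inr h)
              · exact Or.inl (h ▸ hig)
              · exact Or.inr (Or.inl h)
              · exact Or.inr (Or.inr h)
            · rintro (h | h | h)
              · exact Or.inl (Or.inl h)
              · exact Or.inr (Or.inr (Or.inl h))
              · exact Or.inl (Or.inr h)
          have e2 : (g ∪ U) ∩ insert i (insert j U) = insert i U := by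
            ext k; simp only [mem_union, mem_insert, mem_inter]
            constructor
            · rintro ⟨h | h, h' | h' | h'⟩
              · exact Or.inl h'
              · exact absurd (h' ▸ h) hjg
              · exact Or.inr h'
              · exact Or.inl h'
              · exact Or.inr h
              · exact Or.inr h
            · rintro (h | h)
              · exact ⟨Or.inl (h ▸ hig), Or.inl h⟩
              · exact ⟨Or.inr h, Or.inr (Or.inr h)⟩
          rw [e1, e2] at this
          simp only [hjg, hig, if_false, not_false_iff, and_self, if_true]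
          linarith
        · have := hsub (g ∪ U) (insert j U)
          have e1 : g ∪ U ∪ insert j U = g ∪ insert j U := by
            ext k; simp only [mem_union, mem_insert]; tauto
          have e2 : (g ∪ U) ∩ insert j U = U := by
            ext k; simp only [mem_union, mem_insert, mem_inter]
            constructor
            · rintro ⟨h | h, h' | h'⟩
              · exact absurd (h' ▸ h) hjg
              · exact h'
              · exact h
              · exact h
            · exact fun h => ⟨Or.inr h, Or.inr h⟩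
          rw [e1, e2] at this
          simp only [hjg, hig, if_false, false_and]
          linarith
    have hs := sum_le_sum hterm
    rw [sum_add_distrib, sum_add_distrib, sum_ite_const, sum_ite_const] at hs
    have h1 := mul_le_mul_of_nonneg_right (hG.deg j) ha0
    have h2 := mul_le_mul_of_nonneg_right (hG.sep i j hji.symm) hμ0
    nlinarith

/-- the entropy deficiency -/
noncomputable def Dw (G : Finset (Finset ι)) (m : ℝ) (S : Finset (ι → α)) (w : (ι → α) → ℝ) : ℝ :=
  ∑ g ∈ G, (LL S w ∅ - LL S w g) - m * (LL S w ∅ - LL S w univ)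

/-- pointwise deficiency -/
noncomputable def dl (G : Finset (Finset ι)) (m : ℝ) (S : Finset (ι → α)) (w : (ι → α) → ℝ)
    (x : ι → α) : ℝ :=
  ∑ g ∈ G, (Real.log (mass S w ∅ x) - Real.log (mass S w g x))
    - m * (Real.log (mass S w ∅ x) - Real.log (mass S w univ x))

variable {G : Finset (Finset ι)} {m σ : ℝ} {S : Finset (ι → α)} {w : (ι → α) → ℝ}

lemma sum_mul_dl (v : (ι → α) → ℝ) : ∑ x ∈ S, v x * dl G m S w x
    = ∑ g ∈ G, (∑ x ∈ S, v x * (Real.log (mass S w ∅ x) - Real.log (mass S w g x)))
      - m * ∑ x ∈ S, v x * (Real.log (mass S w ∅ x) - Real.log (mass S w univ x)) := by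
  rw [sum_comm, mul_sum, ← sum_sub_distrib]
  refine sum_congr rfl fun x _ => ?_
  unfold dl
  rw [← mul_sum]; ring

lemma Dw_eq_sum : Dw G m S w = ∑ x ∈ S, w x * dl G m S w x := by
  rw [sum_mul_dl]
  unfold Dw LL
  simp only [mul_sub, sum_sub_distrib]

lemma Dw_ge_mutual (hG : Cover G m σ) (hw : ∀ x ∈ S, 0 ≤ w x) (i : ι) :
    σ * (LL S w univ + LL S w ∅ - LL S w {i} - LL S w (univ.erase i)) ≤ Dw G m S w := by
  have := polymatroid hG (LL S w) (LL_submod hw) (fun A B h => LL_anti hw h) i _ ∅
    (notMem_empty i) rfl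
  simp only [union_empty, insert_empty_eq] at this
  unfold Dw
  linarith

lemma Dw_nonneg [Nonempty ι] (hG : Cover G m σ) (hw : ∀ x ∈ S, 0 ≤ w x) : 0 ≤ Dw G m S w := by
  have := Dw_ge_mutual hG.zero hw (Classical.arbitrary ι)
  simpa using this

lemma Dw_ge_mix (hG : Cover G m σ) (hw : ∀ x ∈ S, 0 ≤ w x) (i : ι) :
    σ * ((∑ y ∈ S, ∑ z ∈ S, if Function.update z i (y i) ∈ S then 0 else w y * w z)
      / (∑ x ∈ S, w x)) ≤ Dw G m S w :=
  le_trans (mul_le_mul_of_nonneg_left (mix_fail hw i) hG.nonneg) (Dw_ge_mutual hG hw i)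

/-- cross entropy excess -/
noncomputable def YY (S : Finset (ι → α)) (w v : (ι → α) → ℝ) (g : Finset ι) : ℝ :=
  ∑ x ∈ S, v x * (Real.log (mass S w ∅ x) - Real.log (mass S w g x)) - (LL S v ∅ - LL S v g)

lemma YY_of_mem (hw : ∀ x ∈ S, 0 ≤ w x) (i : ι) (r : α → ℝ) (hr : ∀ t, 0 ≤ r t) {g : Finset ι}
    (hg : i ∈ g) : YY S w (fun x => r (x i) * w x) g
      = ∑ x ∈ S, r (x i) * w x * (Real.log (mass S w ∅ x) + Real.log (r (x i)))
        - LL S (fun x => r (x i) * w x) ∅ := by
  have hm : ∀ x, mass S (fun x => r (x i) * w x) g x = r (x i) * mass S w g x := by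
    intro x
    unfold mass
    rw [mul_sum]
    refine sum_congr rfl fun y _ => ?_
    split_ifs with h
    · rw [h i hg]
    · simp
  have : LL S (fun x => r (x i) * w x) g
      = ∑ x ∈ S, r (x i) * w x * (Real.log (r (x i)) + Real.log (mass S w g x)) := by
    unfold LL
    refine sum_congr rfl fun x hx => ?_
    rw [hm]
    rcases (hr (x i)).eq_or_lt with h | h
    · simp [← h]
    rcases (hw x hx).eq_or_lt with h' | h'
    · simp [← h']
    rw [Real.log_mul h.ne' (mass_pos hw g hx h').ne']
  unfold YY
  rw [this]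
  simp only [mul_add, mul_sub, sum_add_distrib, sum_sub_distrib]
  ring

lemma YY_nonneg (hw : ∀ x ∈ S, 0 ≤ w x) (i : ι) (r : α → ℝ) (hr : ∀ t, 0 ≤ r t) (g : Finset ι) :
    0 ≤ YY S w (fun x => r (x i) * w x) g := by
  have := cross_entropy (v := fun x => r (x i) * w x) hw
    (fun x hx => mul_nonneg (hr _) (hw x hx))
    (fun x hx h => by
      rcases (hw x hx).eq_or_lt with h' | h'
      · simp [← h'] at h
      · exact h') g
  unfold YY
  linarith

/-- key superadditivity lemma -/
lemma key_split (hG : Cover G m σ) (hw : ∀ x ∈ S, 0 ≤ w x) (i : ι) (r : α → ℝ)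
    (hr : ∀ t, 0 ≤ r t) :
    Dw G m S (fun x => r (x i) * w x)
        + ∑ g ∈ G.filter (fun g => i ∉ g), YY S w (fun x => r (x i) * w x) g
      ≤ ∑ x ∈ S, r (x i) * w x * dl G m S w x := by
  set v : (ι → α) → ℝ := fun x => r (x i) * w x with hv
  have h1 : ∑ x ∈ S, v x * dl G m S w x - Dw G m S v
      = ∑ g ∈ G, YY S w v g - m * YY S w v univ := by
    rw [sum_mul_dl]
    unfold Dw YY
    simp only [sum_sub_distrib]
    ring
  have h2 : ∑ g ∈ G, YY S w v g = ∑ g ∈ G.filter (fun g => i ∈ g), YY S w v g
      + ∑ g ∈ G.filter (fun g => i ∉ g), YY S w v g := (sum_filter_add_sum_filter_not _ _ _).symm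
  have h3 : ∑ g ∈ G.filter (fun g => i ∈ g), YY S w v g
      = (#(G.filter (fun g => i ∈ g)) : ℝ) * YY S w v univ := by
    rw [← nsmul_eq_mul, ← sum_const]
    refine sum_congr rfl fun g hg => ?_
    rw [hv, YY_of_mem hw i r hr (mem_filter.1 hg).2, YY_of_mem hw i r hr (mem_univ i)]
  have h4 := mul_le_mul_of_nonneg_right (hG.deg i) (YY_nonneg hw i r hr univ)
  change _ ≤ ∑ x ∈ S, v x * dl G m S w x
  linarith

lemma key_split' (hG : Cover G m σ) (hw : ∀ x ∈ S, 0 ≤ w x) (i : ι) (r : α → ℝ)
    (hr : ∀ t, 0 ≤ r t) :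
    Dw G m S (fun x => r (x i) * w x) ≤ ∑ x ∈ S, r (x i) * w x * dl G m S w x := by
  have h1 := key_split hG hw i r hr
  have h2 : 0 ≤ ∑ g ∈ G.filter (fun g => i ∉ g), YY S w (fun x => r (x i) * w x) g :=
    sum_nonneg fun g _ => YY_nonneg hw i r hr g
  linarith

/-- number of points of S agreeing with x on g -/
noncomputable abbrev cnt (S : Finset (ι → α)) (g : Finset ι) (x : ι → α) : ℝ :=
  mass S (fun _ => 1) g x

/-- unweighted deficiency -/
noncomputable abbrev DS (G : Finset (Finset ι)) (m : ℝ) (S : Finset (ι → α)) : ℝ :=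
  Dw G m S (fun _ => 1)

lemma cnt_eq_card (S : Finset (ι → α)) (g : Finset ι) (x : ι → α) :
    cnt S g x = #(S.filter (fun y => agree g x y)) := by
  unfold cnt mass
  rw [← sum_filter]; simp

lemma cnt_empty (S : Finset (ι → α)) (x : ι → α) : cnt S ∅ x = #S := by
  unfold cnt; rw [mass_empty]; simp

lemma mass_filter (p : (ι → α) → Prop) [DecidablePred p] (g : Finset ι) (x : ι → α) :
    mass S (fun x => (if p x then 1 else 0) * 1) g x = cnt (S.filter p) g x := by
  unfold cnt mass
  rw [sum_filter]
  refine sum_congr rfl fun y _ => ?_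
  by_cases h1 : p y <;> by_cases h2 : agree g x y <;> simp [h1, h2]

lemma LL_filter (p : (ι → α) → Prop) [DecidablePred p] (g : Finset ι) :
    LL S (fun x => (if p x then 1 else 0) * 1) g = LL (S.filter p) (fun _ => 1) g := by
  unfold LL
  rw [sum_filter]
  refine sum_congr rfl fun x _ => ?_
  rw [mass_filter]
  by_cases h1 : p x <;> simp [h1]

lemma Dw_filter (p : (ι → α) → Prop) [DecidablePred p] :
    Dw G m S (fun x => (if p x then 1 else 0) * 1) = DS G m (S.filter p) := by
  unfold DS Dw
  simp only [LL_filter]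

lemma DS_filter_le (hG : Cover G m σ) (i : ι) (p : α → Prop) [DecidablePred p] :
    DS G m (S.filter (fun x => p (x i)))
      ≤ ∑ x ∈ S.filter (fun x => p (x i)), dl G m S (fun _ => 1) x := by
  have := key_split' (S := S) (w := fun _ => 1) hG (fun _ _ => zero_le_one) i
    (fun t => if p t then 1 else 0) (fun t => by split_ifs <;> norm_num)
  rw [Dw_filter (fun x => p (x i))] at this
  refine this.trans (le_of_eq ?_)
  rw [sum_filter]
  refine sum_congr rfl fun x _ => ?_
  split_ifs <;> simp

lemma DS_split (hG : Cover G m σ) (i : ι) (p : α → Prop) [DecidablePred p] :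
    DS G m (S.filter (fun x => p (x i))) + DS G m (S.filter (fun x => ¬ p (x i))) ≤ DS G m S := by
  have h1 := DS_filter_le (S := S) hG i p
  have h2 := DS_filter_le (S := S) hG i (fun t => ¬ p t)
  have h3 := sum_filter_add_sum_filter_not S (fun x => p (x i)) (dl G m S (fun _ => 1))
  have h4 : DS G m S = ∑ x ∈ S, dl G m S (fun _ => 1) x := by
    unfold DS; rw [Dw_eq_sum]; simp
  linarith

/-- removing one slab -/
lemma DS_remove (hG : Cover G m σ) (i : ι) (t : α) {θ : ℝ} (h0 : 0 < θ) (h1 : θ ≤ 1) :
    (1 - θ) * DS G m (S.filter (fun x => ¬ x i = t))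
      + σ * ((#(S.filter (fun x => x i = t)) : ℝ) * θ
          * #(S.filter (fun x => Function.update x i t ∉ S))
          / (#(S.filter (fun x => x i = t)) + θ * #(S.filter (fun x => ¬ x i = t))))
      ≤ DS G m S := by
  set r : α → ℝ := fun s => if s = t then 1 else θ with hr
  have hr0 : ∀ s, 0 ≤ r s := fun s => by simp only [hr]; split_ifs <;> linarith
  have e1 := DS_filter_le (S := S) hG i (fun s => ¬ s = t)
  have e2 := key_split' (S := S) (w := fun _ => 1) hG (fun _ _ => zero_le_one) i r hr0
  have e3 := Dw_ge_mix (S := S) (w := fun x => r (x i) * 1) hG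
    (fun x _ => by simpa using hr0 _) i
  have h4 : DS G m S = ∑ x ∈ S, dl G m S (fun _ => 1) x := by
    unfold DS; rw [Dw_eq_sum]; simp
  have h5 : ∑ x ∈ S, dl G m S (fun _ => 1) x
      = (1 - θ) * ∑ x ∈ S.filter (fun x => ¬ x i = t), dl G m S (fun _ => 1) x
        + ∑ x ∈ S, r (x i) * 1 * dl G m S (fun _ => 1) x := by
    rw [sum_filter, mul_sum, ← sum_add_distrib]
    refine sum_congr rfl fun x _ => ?_
    simp only [hr]
    split_ifs <;> ring
  have h6 : ∑ x ∈ S, r (x i) * 1
      = #(S.filter (fun x => x i = t)) + θ * #(S.filter (fun x => ¬ x i = t)) := by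
    simp only [hr, mul_one]
    rw [sum_ite, sum_const, sum_const]
    simp [mul_comm]
  have h7 : (#(S.filter (fun x => x i = t)) : ℝ) * θ
      * #(S.filter (fun x => Function.update x i t ∉ S))
      ≤ ∑ y ∈ S, ∑ z ∈ S, if Function.update z i (y i) ∈ S then 0
        else r (y i) * 1 * (r (z i) * 1) := by
    have : (#(S.filter (fun x => x i = t)) : ℝ) * θ
        * #(S.filter (fun x => Function.update x i t ∉ S))
        = ∑ y ∈ S, ∑ z ∈ S, if y i = t then (if Function.update z i t ∉ S then θ else 0)
          else 0 := by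
      rw [show (∑ y ∈ S, ∑ z ∈ S, if y i = t then (if Function.update z i t ∉ S then θ else 0)
          else 0) = ∑ y ∈ S, if y i = t then
            (∑ z ∈ S, if Function.update z i t ∉ S then θ else 0) else 0 from
          sum_congr rfl fun y _ => by split_ifs <;> simp]
      rw [← sum_filter, ← sum_filter, sum_const, sum_const]
      simp only [nsmul_eq_mul]; ring
    rw [this]
    refine sum_le_sum fun y _ => sum_le_sum fun z _ => ?_
    by_cases hy : y i = t
    · by_cases hz : Function.update z i t ∈ S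
      · simp [hy, hz]
      · simp only [hy, hz, if_true, not_false_iff, if_false, hr, mul_one, one_mul]
        split_ifs <;> linarith
    · simp only [hy, if_false]
      split_ifs
      · exact le_rfl
      · exact mul_nonneg (by simpa using hr0 _) (by simpa using hr0 _)
  rw [h6] at e3
  have hden : (0 : ℝ) ≤ #(S.filter (fun x => x i = t)) + θ * #(S.filter (fun x => ¬ x i = t)) := by
    positivity
  have h8 := mul_le_mul_of_nonneg_left (div_le_div_of_nonneg_right h7 hden) hG.nonneg
  have h9 := mul_le_mul_of_nonneg_left e1 (sub_nonneg.2 h1)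
  linarith

/-- mutual information between coordinate j and the coordinates in g -/
noncomputable def MI (S : Finset (ι → α)) (j : ι) (g : Finset ι) : ℝ :=
  ∑ x ∈ S, (Real.log (#S) + Real.log (cnt S (insert j g) x) - Real.log (cnt S {j} x)
    - Real.log (cnt S g x))

lemma cnt_section (j : ι) (g : Finset ι) {x : ι → α} {t : α} (hx : x j = t) :
    cnt (S.filter (fun y => y j = t)) g x = cnt S (insert j g) x := by
  rw [cnt_eq_card, cnt_eq_card, filter_filter]
  congr 2
  ext y
  simp only [agree_insert, hx, eq_comm]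

lemma DS_sections (hG : Cover G m σ) (j : ι) (T : Finset α) (hT : ∀ x ∈ S, x j ∈ T) :
    ∑ t ∈ T, DS G m (S.filter (fun x => x j = t))
      + ∑ g ∈ G.filter (fun g => j ∉ g), MI S j g ≤ DS G m S := by
  have h4 : DS G m S = ∑ x ∈ S, dl G m S (fun _ => 1) x := by
    unfold DS; rw [Dw_eq_sum]; simp
  have h1 : ∀ t ∈ T, DS G m (S.filter (fun x => x j = t))
      + ∑ g ∈ G.filter (fun g => j ∉ g), (∑ x ∈ S.filter (fun x => x j = t),
        (Real.log (#S) + Real.log (cnt S (insert j g) x) - Real.log (cnt S {j} x)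
          - Real.log (cnt S g x)))
      ≤ ∑ x ∈ S.filter (fun x => x j = t), dl G m S (fun _ => 1) x := by
    intro t _
    have := key_split (S := S) (w := fun _ => 1) hG (fun _ _ => zero_le_one) j
      (fun s => if s = t then 1 else 0) (fun t => by split_ifs <;> norm_num)
    rw [Dw_filter (fun x => x j = t)] at this
    refine le_trans (le_of_eq ?_) (this.trans (le_of_eq ?_))
    · congr 1
      refine sum_congr rfl fun g _ => ?_
      unfold YY
      rw [LL_filter (fun x => x j = t), LL_filter (fun x => x j = t)]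
      unfold LL
      rw [← sum_sub_distrib, sum_filter, sum_filter, ← sum_sub_distrib]
      refine sum_congr rfl fun x _ => ?_
      by_cases h : x j = t
      · have e1 := cnt_section (S := S) j g h
        have e2 := cnt_section (S := S) j ∅ h
        have e3 := cnt_empty S x
        unfold cnt at e1 e2 e3
        rw [e1, e2, e3, insert_empty_eq]
        simp only [h, if_true]
        ring
      · simp [h]
    · rw [sum_filter]
      refine sum_congr rfl fun x _ => ?_
      by_cases h : x j = t <;> simp [h]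
  have h2 := sum_le_sum h1
  rw [sum_add_distrib, sum_fiberwise_of_maps_to hT, sum_comm] at h2
  have h3 : ∑ g ∈ G.filter (fun g => j ∉ g), ∑ t ∈ T, (∑ x ∈ S.filter (fun x => x j = t),
        (Real.log (#S) + Real.log (cnt S (insert j g) x) - Real.log (cnt S {j} x)
          - Real.log (cnt S g x))) = ∑ g ∈ G.filter (fun g => j ∉ g), MI S j g :=
    sum_congr rfl fun g _ => sum_fiberwise_of_maps_to hT _
  linarith

end Pool.Agent.Lib.MP_be7f84_co
end

-- part Pool.Agent.Lib.MP_be7f84_co.Box
section

/-!
Averaging over a box, conditional densities of a subset of a box, and the lower bound for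
mutual information by a sum of squares.
-/

open Finset

set_option linter.unusedSectionVars false

namespace Pool.Agent.Lib.MP_be7f84_co

variable {ι α : Type*} [Fintype ι] [DecidableEq ι] [DecidableEq α]

/-- the box with sides B i -/
abbrev box (B : ι → Finset α) : Finset (ι → α) := Fintype.piFinset B

variable {B : ι → Finset α} {S : Finset (ι → α)}

lemma update_mem_box {x : ι → α} (hx : x ∈ box B) {i : ι} {s : α} (hs : s ∈ B i) :
    Function.update x i s ∈ box B := by
  rw [Fintype.mem_piFinset] at hx ⊢
  intro k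
  by_cases h : k = i
  · subst h; simpa using hs
  · rw [Function.update_of_ne h]; exact hx k

lemma resample (i : ι) (Φ : (ι → α) → ℝ) :
    ∑ x ∈ box B, ∑ s ∈ B i, Φ (Function.update x i s) = #(B i) * ∑ x ∈ box B, Φ x := by
  have : (#(B i) : ℝ) * ∑ x ∈ box B, Φ x = ∑ x ∈ box B, ∑ _s ∈ B i, Φ x := by
    rw [mul_sum]; simp
  rw [this, ← sum_product', ← sum_product']
  refine sum_nbij' (fun p => (Function.update p.1 i p.2, p.1 i))
    (fun p => (Function.update p.1 i p.2, p.1 i)) ?_ ?_ ?_ ?_ ?_
  · rintro ⟨x, s⟩ h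
    rw [mem_product] at h ⊢
    exact ⟨update_mem_box h.1 h.2, (Fintype.mem_piFinset.1 h.1) i⟩
  · rintro ⟨x, s⟩ h
    rw [mem_product] at h ⊢
    exact ⟨update_mem_box h.1 h.2, (Fintype.mem_piFinset.1 h.1) i⟩
  · rintro ⟨x, s⟩ _; simp
  · rintro ⟨x, s⟩ _; simp
  · rintro ⟨x, s⟩ _; rfl

lemma resample_mul (i : ι) (F H : (ι → α) → ℝ)
    (hF : ∀ x s, F (Function.update x i s) = F x) :
    #(B i) * ∑ x ∈ box B, F x * H x
      = ∑ x ∈ box B, F x * ∑ s ∈ B i, H (Function.update x i s) := by
  rw [← resample i (fun x => F x * H x)]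
  refine sum_congr rfl fun x _ => ?_
  rw [mul_sum]
  refine sum_congr rfl fun s _ => ?_
  rw [hF]

lemma sum_mul_eq_zero (hB : ∀ i, (B i).Nonempty) (i : ι) (F H : (ι → α) → ℝ)
    (hF : ∀ x s, F (Function.update x i s) = F x)
    (hH : ∀ x ∈ box B, ∑ s ∈ B i, H (Function.update x i s) = 0) :
    ∑ x ∈ box B, F x * H x = 0 := by
  have h := resample_mul (B := B) i F H hF
  have h' : ∑ x ∈ box B, F x * ∑ s ∈ B i, H (Function.update x i s) = 0 :=
    sum_eq_zero (fun x hx => by rw [hH x hx, mul_zero])
  rw [h'] at h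
  have : (#(B i) : ℝ) ≠ 0 := by exact_mod_cast (hB i).card_pos.ne'
  exact (mul_eq_zero.1 h).resolve_left this

lemma sum_mul_indep (hB : ∀ i, (B i).Nonempty) (i : ι) (F H : (ι → α) → ℝ)
    (hF : ∀ x s, F (Function.update x i s) = F x)
    (hH : ∀ x y, x i = y i → H x = H y) :
    #(box B) * ∑ x ∈ box B, F x * H x = (∑ x ∈ box B, F x) * ∑ x ∈ box B, H x := by
  obtain ⟨s0, -⟩ := hB i
  set c := ∑ s ∈ B i, H (Function.update (fun _ => s0) i s) with hc
  have h0 : ∀ x, ∑ s ∈ B i, H (Function.update x i s) = c := fun x =>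
    sum_congr rfl fun s _ => hH _ _ (by simp)
  have h1 := resample_mul (B := B) i F H hF
  have h2 := resample (B := B) i H
  simp only [h0] at h1 h2
  rw [← sum_mul] at h1
  rw [sum_const, nsmul_eq_mul] at h2
  have : (#(B i) : ℝ) ≠ 0 := by exact_mod_cast (hB i).card_pos.ne'
  apply mul_left_cancel₀ this
  calc (#(B i) : ℝ) * (#(box B) * ∑ x ∈ box B, F x * H x)
      = #(box B) * (#(B i) * ∑ x ∈ box B, F x * H x) := by ring
    _ = (∑ x ∈ box B, F x) * (#(box B) * c) := by rw [h1]; ring
    _ = _ := by rw [h2]; ring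

lemma sum_sq_orth (hB : ∀ i, (B i).Nonempty) (U : Finset ι) (H : ι → (ι → α) → ℝ)
    (h1 : ∀ i ∈ U, ∀ k ∈ U, k ≠ i → ∀ x s, H i (Function.update x k s) = H i x)
    (h2 : ∀ i ∈ U, ∀ x ∈ box B, ∑ s ∈ B i, H i (Function.update x i s) = 0) :
    ∑ x ∈ box B, (∑ i ∈ U, H i x) ^ 2 = ∑ i ∈ U, ∑ x ∈ box B, (H i x) ^ 2 := by
  simp only [sq, sum_mul_sum]
  rw [sum_comm]
  refine sum_congr rfl fun i hi => ?_
  rw [sum_comm, sum_eq_single i]
  · intro k hk hki
    exact sum_mul_eq_zero hB k (H i) (H k) (h1 i hi k hk hki) (h2 k hk)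
  · exact fun h => absurd hi h

/-- size of a fibre of the box over the coordinates in U -/
noncomputable def NU (B : ι → Finset α) (U : Finset ι) : ℝ :=
  ∏ k, if k ∈ U then 1 else (#(B k) : ℝ)

lemma NU_pos (hB : ∀ i, (B i).Nonempty) (U : Finset ι) : 0 < NU B U := by
  unfold NU
  refine prod_pos fun k _ => ?_
  split_ifs
  · exact one_pos
  · exact_mod_cast (hB k).card_pos

lemma NU_empty : NU B ∅ = #(box B) := by
  simp [NU, Fintype.card_piFinset]

lemma NU_insert {i : ι} {U : Finset ι} (hi : i ∉ U) : NU B U = #(B i) * NU B (insert i U) := by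
  unfold NU
  rw [← mul_prod_erase univ _ (mem_univ i), ← mul_prod_erase univ _ (mem_univ i)]
  simp only [hi, if_false, mem_insert, true_or, if_true, one_mul]
  congr 1
  refine prod_congr rfl fun k hk => ?_
  simp [(mem_erase.1 hk).1]

lemma cnt_box {x : ι → α} (hx : x ∈ box B) (U : Finset ι) : cnt (box B) U x = NU B U := by
  rw [cnt_eq_card]
  have : (box B).filter (fun y => agree U x y)
      = Fintype.piFinset (fun k => if k ∈ U then {x k} else B k) := by
    ext y
    rw [mem_filter, Fintype.mem_piFinset, Fintype.mem_piFinset]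
    rw [Fintype.mem_piFinset] at hx
    constructor
    · rintro ⟨h1, h2⟩ k
      split_ifs with h
      · simp [h2 k h]
      · exact h1 k
    · intro h
      refine ⟨fun k => ?_, fun k hk => ?_⟩
      · have := h k
        split_ifs at this with hk
        · rw [mem_singleton] at this; rw [this]; exact hx k
        · exact this
      · have := h k
        rw [if_pos hk, mem_singleton] at this
        exact this.symm
  rw [this, Fintype.card_piFinset]
  unfold NU
  push_cast
  refine prod_congr rfl fun k _ => ?_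
  split_ifs <;> simp

lemma cnt_le_NU (hS : S ⊆ box B) {x : ι → α} (hx : x ∈ box B) (U : Finset ι) :
    cnt S U x ≤ NU B U := by
  rw [← cnt_box hx, cnt_eq_card, cnt_eq_card]
  exact_mod_cast card_le_card (filter_subset_filter _ hS)

lemma cnt_nonneg (S : Finset (ι → α)) (U : Finset ι) (x : ι → α) : 0 ≤ cnt S U x := by
  rw [cnt_eq_card]; positivity

lemma sum_cnt_mul (hS : S ⊆ box B) (U : Finset ι) (H : (ι → α) → ℝ)
    (hH : ∀ x y, agree U x y → H x = H y) :
    ∑ x ∈ box B, cnt S U x * H x = NU B U * ∑ y ∈ S, H y := by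
  unfold cnt mass
  simp only [sum_mul]
  rw [sum_comm, mul_sum]
  refine sum_congr rfl fun y hy => ?_
  rw [← cnt_box (hS hy) U]
  unfold cnt mass
  rw [sum_mul]
  refine sum_congr rfl fun x _ => ?_
  by_cases h : agree U x y
  · simp [h, h.symm, hH x y h]
  · have h' : ¬ agree U y x := fun h'' => h h''.symm
    simp [h, h']

lemma agree_update {U : Finset ι} {i : ι} (hi : i ∉ U) (x : ι → α) (s : α) :
    agree U (Function.update x i s) x := by
  intro k hk
  rw [Function.update_of_ne]
  rintro rfl; exact hi hk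

lemma cnt_tower (hS : S ⊆ box B) {U : Finset ι} {i : ι} (hi : i ∉ U) (x : ι → α) :
    ∑ s ∈ B i, cnt S (insert i U) (Function.update x i s) = cnt S U x := by
  unfold cnt mass
  rw [sum_comm]
  refine sum_congr rfl fun y hy => ?_
  have hy' : y i ∈ B i := (Fintype.mem_piFinset.1 (hS hy)) i
  have : ∀ s, agree (insert i U) (Function.update x i s) y ↔ s = y i ∧ agree U x y := by
    intro s
    rw [agree_insert, Function.update_self]
    exact and_congr_right fun _ =>
      ⟨fun h => (agree_update hi x s).symm.trans h, fun h => (agree_update hi x s).trans h⟩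
  simp only [this]
  by_cases h : agree U x y
  · simp [h, hy']
  · simp [h]

/-- conditional density of S in the box given the coordinates in U -/
noncomputable def pU (S : Finset (ι → α)) (B : ι → Finset α) (U : Finset ι) (x : ι → α) : ℝ :=
  cnt S U x / NU B U

lemma pU_congr {U : Finset ι} {x y : ι → α} (h : agree U x y) : pU S B U x = pU S B U y := by
  unfold pU cnt; rw [mass_congr h]

lemma pU_update {U : Finset ι} {i : ι} (hi : i ∉ U) (x : ι → α) (s : α) :
    pU S B U (Function.update x i s) = pU S B U x := pU_congr (agree_update hi x s)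

lemma pU_nonneg (hB : ∀ i, (B i).Nonempty) (U : Finset ι) (x : ι → α) : 0 ≤ pU S B U x :=
  div_nonneg (cnt_nonneg _ _ _) (NU_pos hB U).le

lemma pU_le_one (hB : ∀ i, (B i).Nonempty) (hS : S ⊆ box B) {x : ι → α} (hx : x ∈ box B)
    (U : Finset ι) : pU S B U x ≤ 1 :=
  (div_le_one (NU_pos hB U)).2 (cnt_le_NU hS hx U)

lemma pU_empty (x : ι → α) : pU S B ∅ x = #S / #(box B) := by
  unfold pU; rw [cnt_empty, NU_empty]

lemma sum_pU_mul (hB : ∀ i, (B i).Nonempty) (hS : S ⊆ box B) (U : Finset ι) (H : (ι → α) → ℝ)
    (hH : ∀ x y, agree U x y → H x = H y) :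
    ∑ x ∈ box B, pU S B U x * H x = ∑ y ∈ S, H y := by
  have := sum_cnt_mul hS U H hH
  have h0 := (NU_pos hB U).ne'
  calc ∑ x ∈ box B, pU S B U x * H x = (∑ x ∈ box B, cnt S U x * H x) / NU B U := by
        rw [sum_div]; refine sum_congr rfl fun x _ => ?_
        unfold pU; ring
    _ = _ := by rw [this]; field_simp

lemma pU_tower (hB : ∀ i, (B i).Nonempty) (hS : S ⊆ box B) {U : Finset ι} {i : ι} (hi : i ∉ U)
    (x : ι → α) :
    ∑ s ∈ B i, pU S B (insert i U) (Function.update x i s) = #(B i) * pU S B U x := by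
  unfold pU
  rw [← sum_div, cnt_tower hS hi, NU_insert hi]
  have h0 := (NU_pos hB (insert i U)).ne'
  have : (#(B i) : ℝ) ≠ 0 := by exact_mod_cast (hB i).card_pos.ne'
  field_simp

lemma rho_aux (hB : ∀ i, (B i).Nonempty) (hS : S ⊆ box B) {j : ι} {g : Finset ι} (hj : j ∉ g)
    (Ψ : (ι → α) → ℝ) (hΨ : ∀ x y, agree (insert j g) x y → Ψ x = Ψ y) :
    #(B j) * ∑ x ∈ box B, pU S B g x * (pU S B {j} x * Ψ x)
      = ∑ t ∈ B j, pU S B {j} (fun _ => t) * ∑ y ∈ S, Ψ (Function.update y j t) := by
  rw [resample_mul j _ _ (pU_update hj)]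
  simp only [mul_sum]
  rw [sum_comm]
  refine sum_congr rfl fun t _ => ?_
  rw [← mul_sum, ← sum_pU_mul hB hS g (fun y => Ψ (Function.update y j t)), mul_sum]
  · refine sum_congr rfl fun x _ => ?_
    rw [pU_congr (x := Function.update x j t) (y := fun _ => t) (by simp [agree_singleton])]
    ring
  · intro x y h
    refine hΨ _ _ ?_
    rw [agree_insert]
    exact ⟨by simp, ((agree_update hj x t).trans h).trans (agree_update hj y t).symm⟩

lemma rho_eq (hB : ∀ i, (B i).Nonempty) (hS : S ⊆ box B) {j : ι} {g g' : Finset ι} (hj : j ∉ g)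
    (hg : g' ⊆ g) (Ψ : (ι → α) → ℝ) (hΨ : ∀ x y, agree (insert j g') x y → Ψ x = Ψ y) :
    ∑ x ∈ box B, pU S B g x * (pU S B {j} x * Ψ x)
      = ∑ x ∈ box B, pU S B g' x * (pU S B {j} x * Ψ x) := by
  have h1 := rho_aux hB hS hj Ψ (fun x y h => hΨ x y (h.mono (insert_subset_insert j hg)))
  have h2 := rho_aux hB hS (fun h => hj (hg h)) Ψ hΨ
  have : (#(B j) : ℝ) ≠ 0 := by exact_mod_cast (hB j).card_pos.ne'
  exact mul_left_cancel₀ this (h1.trans h2.symm)

lemma log_quad {p ρ K : ℝ} (h : ℝ) (hp : 0 ≤ p) (hρ : 0 ≤ ρ) (hpK : p ≤ K) (hρK : ρ ≤ K)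
    (hpρ : 0 < p → 0 < ρ) :
    p - ρ + (p - ρ) * h - K * h ^ 2 ≤ p * (Real.log p - Real.log ρ) := by
  rcases hp.eq_or_lt with h0 | h0
  · subst h0
    nlinarith [mul_nonneg hρ (sq_nonneg (h + 1 / 2)), mul_nonneg (sub_nonneg.2 hρK) (sq_nonneg h)]
  have hρ0 := hpρ h0
  obtain ⟨u, hu, rfl⟩ : ∃ u : ℝ, 0 < u ∧ p = u ^ 2 :=
    ⟨√p, Real.sqrt_pos.2 h0, (Real.sq_sqrt hp).symm⟩
  obtain ⟨v, hv, rfl⟩ : ∃ v : ℝ, 0 < v ∧ ρ = v ^ 2 :=
    ⟨√ρ, Real.sqrt_pos.2 hρ0, (Real.sq_sqrt hρ).symm⟩
  have h1 := Real.log_le_sub_one_of_pos (div_pos hv hu)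
  rw [Real.log_div hv.ne' hu.ne'] at h1
  rw [Real.log_pow, Real.log_pow]
  have h2 : u ^ 2 * (Real.log v - Real.log u) ≤ u * v - u ^ 2 := by
    calc u ^ 2 * (Real.log v - Real.log u) ≤ u ^ 2 * (v / u - 1) :=
          mul_le_mul_of_nonneg_left h1 (by positivity)
      _ = u * v - u ^ 2 := by field_simp
  have h3 : (u + v) ^ 2 ≤ 4 * K := by nlinarith [sq_nonneg (u - v)]
  have h4 := mul_le_mul_of_nonneg_right h3 (sq_nonneg h)
  push_cast
  nlinarith [sq_nonneg ((u - v) - (u + v) * h / 2)]

/-- the correlation function of coordinates j and i -/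
noncomputable def psi (S : Finset (ι → α)) (B : ι → Finset α) (j i : ι) (x : ι → α) : ℝ :=
  pU S B (insert j {i}) x - pU S B {i} x * pU S B {j} x / (#S / #(box B))

lemma psi_congr {j i : ι} {x y : ι → α} (h : agree (insert j {i}) x y) :
    psi S B j i x = psi S B j i y := by
  unfold psi
  rw [pU_congr h, pU_congr (U := {i}) (h.mono (by simp)), pU_congr (U := {j}) (h.mono (by simp))]

lemma psi_tower (hB : ∀ i, (B i).Nonempty) (hS : S ⊆ box B) (hne : S.Nonempty) {j i : ι}
    (hij : i ≠ j) (x : ι → α) : ∑ s ∈ B i, psi S B j i (Function.update x i s) = 0 := by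
  unfold psi
  have h1 := pU_tower hB hS (U := {j}) (i := i) (by simpa using hij) x
  have h2 := pU_tower hB hS (U := ∅) (i := i) (by simp) x
  rw [pair_comm] at h1
  rw [insert_empty_eq, pU_empty] at h2
  have h3 : ∀ s, pU S B {j} (Function.update x i s) = pU S B {j} x :=
    pU_update (by simpa using hij) x
  simp only [h3]
  rw [sum_sub_distrib, h1, ← sum_div, ← sum_mul, h2]
  have : (0 : ℝ) < #S := by exact_mod_cast hne.card_pos
  have : (0 : ℝ) < #(box B) := by exact_mod_cast (hne.mono hS).card_pos
  field_simp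
  ring

lemma MI_ge (hB : ∀ i, (B i).Nonempty) (hS : S ⊆ box B) (hne : S.Nonempty) {j : ι}
    {g : Finset ι} (hj : j ∉ g) :
    ∑ i ∈ g, (#S / #(box B) : ℝ) / 4 * ∑ x ∈ box B, (psi S B j i x) ^ 2 ≤ MI S j g := by
  have hS0 : (0 : ℝ) < #S := by exact_mod_cast hne.card_pos
  have hB0 : (0 : ℝ) < #(box B) := by exact_mod_cast (hne.mono hS).card_pos
  set a : ℝ := #S / #(box B) with ha
  have ha0 : 0 < a := div_pos hS0 hB0
  have ha1 : a ≤ 1 := (div_le_one hB0).2 (by exact_mod_cast card_le_card hS)
  set ρ : (ι → α) → ℝ := fun x => pU S B g x * pU S B {j} x / a with hρ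
  set h : (ι → α) → ℝ := fun x => ∑ i ∈ g, a / 2 * psi S B j i x with hh
  have hρc : ∀ x y, agree (insert j g) x y → ρ x = ρ y := fun x y hxy => by
    simp only [hρ]
    rw [pU_congr (U := g) (hxy.mono (by simp)), pU_congr (U := {j}) (hxy.mono (by simp))]
  have e1 : MI S j g = ∑ x ∈ box B, pU S B (insert j g) x *
      (Real.log (pU S B (insert j g) x) - Real.log (ρ x)) := by
    rw [sum_pU_mul hB hS _ _ (fun x y hxy => by rw [pU_congr hxy, hρc x y hxy])]
    unfold MI
    refine sum_congr rfl fun x hx => ?_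
    have c1 : 0 < cnt S (insert j g) x := mass_pos (fun _ _ => zero_le_one) _ hx one_pos
    have c2 : 0 < cnt S g x := mass_pos (fun _ _ => zero_le_one) _ hx one_pos
    have c3 : 0 < cnt S {j} x := mass_pos (fun _ _ => zero_le_one) _ hx one_pos
    have n1 := NU_pos hB (insert j g)
    have n2 := NU_pos hB {j}
    have n3 : (0 : ℝ) < #(B j) := by exact_mod_cast (hB j).card_pos
    have n4 : (#(box B) : ℝ) = #(B j) * NU B {j} := by
      rw [← NU_empty, NU_insert (notMem_empty j), insert_empty_eq]
    have e : ρ x = cnt S g x * cnt S {j} x / (#S * NU B (insert j g)) := by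
      simp only [hρ, ha]
      unfold pU
      rw [NU_insert hj, n4]
      field_simp
    rw [e]
    unfold pU
    rw [Real.log_div c1.ne' n1.ne', Real.log_div (by positivity) (by positivity),
      Real.log_mul c2.ne' c3.ne', Real.log_mul hS0.ne' n1.ne']
    ring
  have e2 : ∑ x ∈ box B, (pU S B (insert j g) x - ρ x + (pU S B (insert j g) x - ρ x) * h x
      - 1 / a * h x ^ 2) ≤ MI S j g := by
    rw [e1]
    refine sum_le_sum fun x hx => ?_
    have p1 := pU_le_one hB hS hx g
    have p2 := pU_le_one hB hS hx {j}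
    have p3 := pU_nonneg (S := S) hB g x
    have p4 := pU_nonneg (S := S) hB {j} x
    refine log_quad _ (pU_nonneg hB _ _) (by simp only [hρ]; positivity) ?_ ?_ ?_
    · exact (pU_le_one hB hS hx _).trans ((one_le_div ha0).2 ha1)
    · simp only [hρ]
      exact div_le_div_of_nonneg_right (by nlinarith) ha0.le
    · intro hp
      have c1 : 0 < cnt S (insert j g) x := by
        unfold pU at hp
        exact (div_pos_iff_of_pos_right (NU_pos hB _)).1 hp
      have c2 : 0 < cnt S g x :=
        c1.trans_le (mass_anti (fun _ _ => zero_le_one) (subset_insert _ _) x)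
      have c3 : 0 < cnt S {j} x :=
        c1.trans_le (mass_anti (fun _ _ => zero_le_one) (by simp) x)
      have n1 := NU_pos hB g
      have n2 := NU_pos hB {j}
      simp only [hρ]
      unfold pU
      positivity
  refine le_trans (le_of_eq ?_) e2
  have e3 : ∑ x ∈ box B, pU S B (insert j g) x = #S := by
    have := sum_pU_mul hB hS (insert j g) (fun _ => 1) (fun _ _ _ => rfl)
    simpa using this
  have e4 : ∑ x ∈ box B, ρ x = #S := by
    have h1 := rho_eq hB hS hj (empty_subset g) (fun _ => 1) (fun _ _ _ => rfl)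
    have h2 := sum_pU_mul hB hS {j} (fun _ => 1) (fun _ _ _ => rfl)
    simp only [mul_one, pU_empty, ← ha, sum_const, nsmul_eq_mul] at h1 h2
    simp only [hρ]
    rw [← sum_div, h1, ← mul_sum, h2]
    field_simp
  have e5 : ∑ x ∈ box B, (pU S B (insert j g) x - ρ x) * h x
      = ∑ i ∈ g, a / 2 * ∑ x ∈ box B, (psi S B j i x) ^ 2 := by
    simp only [hh, mul_sum]
    rw [sum_comm]
    refine sum_congr rfl fun i hi => ?_
    have hsub : insert j {i} ⊆ insert j g := insert_subset_insert j (by simpa using hi)
    have h1 := sum_pU_mul hB hS (insert j g) (psi S B j i)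
      (fun x y hxy => psi_congr (hxy.mono hsub))
    have h2 := sum_pU_mul hB hS (insert j {i}) (psi S B j i) (fun x y hxy => psi_congr hxy)
    have h3 := rho_eq hB hS hj (g' := {i}) (by simpa using hi) (psi S B j i)
      (fun x y hxy => psi_congr hxy)
    calc ∑ x ∈ box B, (pU S B (insert j g) x - ρ x) * (a / 2 * psi S B j i x)
        = a / 2 * ∑ x ∈ box B, pU S B (insert j g) x * psi S B j i x
          - 1 / 2 * ∑ x ∈ box B, pU S B g x * (pU S B {j} x * psi S B j i x) := by
          rw [mul_sum, mul_sum, ← sum_sub_distrib]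
          refine sum_congr rfl fun x _ => ?_
          simp only [hρ]; field_simp
      _ = a / 2 * ∑ x ∈ box B, pU S B (insert j {i}) x * psi S B j i x
          - 1 / 2 * ∑ x ∈ box B, pU S B {i} x * (pU S B {j} x * psi S B j i x) := by
          rw [h1, h2, h3]
      _ = _ := by
          rw [mul_sum, mul_sum, ← sum_sub_distrib]
          refine sum_congr rfl fun x _ => ?_
          have : psi S B j i x = pU S B (insert j {i}) x - pU S B {i} x * pU S B {j} x / a := rfl
          rw [sq]
          nth_rewrite 3 [this]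
          field_simp
  have e6 : ∑ x ∈ box B, h x ^ 2 = ∑ i ∈ g, (a / 2) ^ 2 * ∑ x ∈ box B, (psi S B j i x) ^ 2 := by
    simp only [hh]
    rw [sum_sq_orth hB g (fun i x => a / 2 * psi S B j i x)]
    · refine sum_congr rfl fun i _ => ?_
      rw [mul_sum]
      refine sum_congr rfl fun x _ => by ring
    · intro i _ k hk hki x s
      rw [psi_congr (agree_update _ x s)]
      simp only [mem_insert, mem_singleton, not_or]
      exact ⟨fun h => hj (h ▸ hk), hki⟩
    · intro i hi x _
      have hij : i ≠ j := fun h => hj (h ▸ hi)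
      rw [← mul_sum, psi_tower hB hS hne hij, mul_zero]
  have e7 : ∑ x ∈ box B, 1 / a * h x ^ 2
      = ∑ i ∈ g, 1 / a * ((a / 2) ^ 2 * ∑ x ∈ box B, (psi S B j i x) ^ 2) := by
    rw [← mul_sum, e6, mul_sum]
  rw [sum_sub_distrib, sum_add_distrib, sum_sub_distrib, e3, e4, e5, e7,
    sub_self, zero_add, ← sum_sub_distrib]
  refine sum_congr rfl fun i _ => ?_
  field_simp
  ring

end Pool.Agent.Lib.MP_be7f84_co
end
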