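import Pool.Agent.Lib.MP_be7f84_co.Box

-- part Pool.Agent.Lib.MP_be7f84_co.Inside
section

/-!
Lower bound for the deficiency of a dense subset of a box all of whose slabs are almost full.
-/

open Finset

set_option linter.unusedSectionVars false

namespace Pool.Agent.Lib.MP_be7f84_co

variable {ι α : Type*} [Fintype ι] [DecidableEq ι] [DecidableEq α]
variable {B : ι → Finset α} {S : Finset (ι → α)}

/-- level one part of the indicator function of S -/
noncomputable def bb (S : Finset (ι → α)) (B : ι → Finset α) (i : ι) (x : ι → α) : ℝ :=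
  pU S B {i} x - #S / #(box B)

lemma bb_congr {i : ι} {x y : ι → α} (h : x i = y i) : bb S B i x = bb S B i y := by
  unfold bb; rw [pU_congr (agree_singleton.2 h)]

lemma bb_update {i k : ι} (h : k ≠ i) (x : ι → α) (s : α) :
    bb S B i (Function.update x k s) = bb S B i x :=
  bb_congr (Function.update_of_ne h.symm _ _)

lemma bb_tower (hB : ∀ i, (B i).Nonempty) (hS : S ⊆ box B) (i : ι) (x : ι → α) :
    ∑ s ∈ B i, bb S B i (Function.update x i s) = 0 := by
  unfold bb
  have h2 := pU_tower hB hS (U := ∅) (i := i) (by simp) x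
  rw [insert_empty_eq, pU_empty] at h2
  rw [sum_sub_distrib, h2]; simp

lemma sum_bb (hB : ∀ i, (B i).Nonempty) (hS : S ⊆ box B) (i : ι) :
    ∑ x ∈ box B, bb S B i x = 0 := by
  have := sum_mul_eq_zero hB i (fun _ => 1) (bb S B i) (fun _ _ => rfl)
    (fun x _ => bb_tower hB hS i x)
  simpa using this

lemma sum_sq_ell (hB : ∀ i, (B i).Nonempty) (hS : S ⊆ box B) (U : Finset ι) :
    ∑ x ∈ box B, (∑ i ∈ U, bb S B i x) ^ 2 = ∑ i ∈ U, ∑ x ∈ box B, (bb S B i x) ^ 2 :=
  sum_sq_orth hB U (bb S B) (fun _ _ _ _ h x s => bb_update h x s)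
    (fun i _ x _ => bb_tower hB hS i x)

lemma sum_compl_ell (hB : ∀ i, (B i).Nonempty) (hS : S ⊆ box B) (U : Finset ι) :
    ∑ x ∈ box B \ S, -(∑ i ∈ U, bb S B i x) = ∑ i ∈ U, ∑ x ∈ box B, (bb S B i x) ^ 2 := by
  rw [sum_neg_distrib, sum_comm, ← sum_neg_distrib]
  refine sum_congr rfl fun i _ => ?_
  have h1 := sum_sdiff hS (f := bb S B i)
  have h2 := sum_pU_mul hB hS {i} (bb S B i) (fun x y h => bb_congr (agree_singleton.1 h))
  have h3 := sum_bb hB hS i
  have h4 : ∑ x ∈ box B, (bb S B i x) ^ 2 = ∑ x ∈ box B, pU S B {i} x * bb S B i x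
      - (#S / #(box B)) * ∑ x ∈ box B, bb S B i x := by
    rw [mul_sum, ← sum_sub_distrib]
    refine sum_congr rfl fun x _ => ?_
    rw [← sub_mul, sq]; rfl
  rw [h4, h2, h3]; linarith

lemma card_sdiff_real (hS : S ⊆ box B) : (#(box B \ S) : ℝ) = #(box B) - #S := by
  rw [card_sdiff_of_subset hS, Nat.cast_sub (card_le_card hS)]

lemma bessel (hB : ∀ i, (B i).Nonempty) (hS : S ⊆ box B) (U : Finset ι) :
    ∑ i ∈ U, ∑ x ∈ box B, (bb S B i x) ^ 2 ≤ #(box B) - #S := by
  have h1 := sum_compl_ell hB hS U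
  have h2 := sum_sq_ell hB hS U
  have h3 : ∑ x ∈ box B \ S, -(∑ i ∈ U, bb S B i x)
      ≤ ∑ x ∈ box B \ S, (1 / 2 + 1 / 2 * (∑ i ∈ U, bb S B i x) ^ 2) :=
    sum_le_sum fun x _ => by nlinarith [sq_nonneg (∑ i ∈ U, bb S B i x + 1)]
  have h4 : ∑ x ∈ box B \ S, (∑ i ∈ U, bb S B i x) ^ 2 ≤ ∑ x ∈ box B, (∑ i ∈ U, bb S B i x) ^ 2 :=
    sum_le_sum_of_subset_of_nonneg sdiff_subset fun _ _ _ => sq_nonneg _
  rw [sum_add_distrib, ← mul_sum, sum_const, nsmul_eq_mul, card_sdiff_real hS] at h3
  linarith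

lemma fourth_moment (hB : ∀ i, (B i).Nonempty) (hS : S ⊆ box B) {κ : ℝ}
    (hκ : ∀ i, ∀ x ∈ box B, (bb S B i x) ^ 2 ≤ κ ^ 2) (U : Finset ι) :
    #(box B) * ∑ x ∈ box B, (∑ i ∈ U, bb S B i x) ^ 4
      ≤ #(box B) * κ ^ 2 * (∑ i ∈ U, ∑ x ∈ box B, (bb S B i x) ^ 2)
        + 3 * (∑ i ∈ U, ∑ x ∈ box B, (bb S B i x) ^ 2) ^ 2 := by
  induction U using Finset.induction_on with
  | empty => simp
  | insert k U hk ih =>
    simp only [sum_insert hk]
    set l : (ι → α) → ℝ := fun x => ∑ i ∈ U, bb S B i x with hl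
    have hlu : ∀ x s, l (Function.update x k s) = l x := fun x s =>
      sum_congr rfl fun i hi => bb_update (by rintro rfl; exact hk hi) x s
    have hl0 : ∑ x ∈ box B, l x = 0 := by
      simp only [hl]; rw [sum_comm]; exact sum_eq_zero fun i _ => sum_bb hB hS i
    have h1 := sum_mul_eq_zero hB k (fun x => l x ^ 3) (bb S B k) (fun x s => by rw [hlu])
      (fun x _ => bb_tower hB hS k x)
    have h2 := sum_mul_indep hB k (fun x => l x ^ 2) (fun x => bb S B k x ^ 2)
      (fun x s => by rw [hlu]) (fun x y h => by rw [bb_congr h])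
    have h3 := sum_mul_indep hB k l (fun x => bb S B k x ^ 3) hlu
      (fun x y h => by rw [bb_congr h])
    rw [hl0, zero_mul] at h3
    have h4 : ∑ x ∈ box B, bb S B k x ^ 4 ≤ κ ^ 2 * ∑ x ∈ box B, bb S B k x ^ 2 := by
      rw [mul_sum]
      refine sum_le_sum fun x hx => ?_
      have := hκ k x hx
      nlinarith [sq_nonneg (bb S B k x)]
    have h5 : ∑ x ∈ box B, l x ^ 2 = ∑ i ∈ U, ∑ x ∈ box B, (bb S B i x) ^ 2 :=
      sum_sq_ell hB hS U
    have h6 : ∑ x ∈ box B, (bb S B k x + l x) ^ 4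
        = ∑ x ∈ box B, l x ^ 4 + 4 * ∑ x ∈ box B, l x ^ 3 * bb S B k x
          + 6 * ∑ x ∈ box B, l x ^ 2 * bb S B k x ^ 2 + 4 * ∑ x ∈ box B, l x * bb S B k x ^ 3
          + ∑ x ∈ box B, bb S B k x ^ 4 := by
      simp only [mul_sum, ← sum_add_distrib]
      refine sum_congr rfl fun x _ => by ring
    change #(box B) * ∑ x ∈ box B, (bb S B k x + l x) ^ 4 ≤ _
    change #(box B) * ∑ x ∈ box B, l x ^ 4 ≤ _ at ih
    rw [h5] at h2
    rw [h6, h1]
    have hn : (0 : ℝ) ≤ #(box B) := Nat.cast_nonneg _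
    have h7 := mul_le_mul_of_nonneg_left h4 hn
    nlinarith [sq_nonneg (∑ x ∈ box B, bb S B k x ^ 2)]

/-- level one inequality -/
lemma level_one (hB : ∀ i, (B i).Nonempty) (hS : S ⊆ box B)
    (hκ : ∀ i, ∀ x ∈ box B, (bb S B i x) ^ 2 ≤ (1 / 100000 : ℝ) ^ 2)
    (hM : (#(box B) : ℝ) - #S ≤ #(box B) / 100000) :
    ∑ i, ∑ x ∈ box B, (bb S B i x) ^ 2 ≤ (#(box B) - #S) / 20 := by
  have h1 := sum_compl_ell hB hS univ
  have h2 := fourth_moment hB hS hκ univ
  have h0 := bessel hB hS univ
  have h3 : ∑ x ∈ box B \ S, -(∑ i, bb S B i x)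
      ≤ ∑ x ∈ box B \ S, (1 / 40 + 8000 * (∑ i, bb S B i x) ^ 4) :=
    sum_le_sum fun x _ => by
      nlinarith [sq_nonneg (∑ i, bb S B i x + 1 / 40), sq_nonneg ((∑ i, bb S B i x) ^ 2 - 1 / 800)]
  have h4 : ∑ x ∈ box B \ S, (∑ i, bb S B i x) ^ 4 ≤ ∑ x ∈ box B, (∑ i, bb S B i x) ^ 4 :=
    sum_le_sum_of_subset_of_nonneg sdiff_subset fun _ _ _ => by positivity
  rw [sum_add_distrib, ← mul_sum, sum_const, nsmul_eq_mul, card_sdiff_real hS] at h3
  have hn : (0 : ℝ) < #(box B) := by
    exact_mod_cast (Fintype.piFinset_nonempty.2 hB).card_pos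
  set W := ∑ i, ∑ x ∈ box B, (bb S B i x) ^ 2 with hW
  have hW0 : 0 ≤ W := sum_nonneg fun _ _ => sum_nonneg fun _ _ => sq_nonneg _
  set Q := ∑ x ∈ box B, (∑ i, bb S B i x) ^ 4 with hQ
  have h5 : #(box B) * Q ≤ #(box B) * (W / 16000) := by
    have : W ^ 2 ≤ W * (#(box B) / 100000) := by nlinarith
    nlinarith
  have h6 : Q ≤ W / 16000 := le_of_mul_le_mul_left h5 hn
  linarith

/-- the potential -/
noncomputable def Pot (S : Finset (ι → α)) (B : ι → Finset α) : ℝ :=
  ∑ x ∈ box B, ((1 - pU S B ∅ x) / 12 - (1 - pU S B ∅ x) ^ 2 / 2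
    - ∑ i, (pU S B {i} x - pU S B ∅ x) ^ 2)

lemma Pot_eq : Pot S B = #(box B) * ((1 - #S / #(box B)) / 12 - (1 - #S / #(box B)) ^ 2 / 2)
    - ∑ i, ∑ x ∈ box B, (bb S B i x) ^ 2 := by
  unfold Pot bb
  simp only [pU_empty]
  rw [sum_sub_distrib, sum_const, nsmul_eq_mul, sum_comm]

lemma box_update {j : ι} {t : α} (ht : t ∈ B j) :
    box (Function.update B j {t}) = (box B).filter (fun x => x j = t) := by
  ext x
  rw [mem_filter, Fintype.mem_piFinset, Fintype.mem_piFinset]
  constructor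
  · intro h
    have hj : x j = t := by simpa using h j
    refine ⟨fun k => ?_, hj⟩
    by_cases hk : k = j
    · subst hk; rw [hj]; exact ht
    · simpa [hk] using h k
  · rintro ⟨h, hj⟩ k
    by_cases hk : k = j
    · subst hk; simpa using hj
    · simpa [hk] using h k

lemma NU_update (j : ι) (t : α) (U : Finset ι) :
    NU (Function.update B j {t}) U = NU B (insert j U) := by
  unfold NU
  refine prod_congr rfl fun k _ => ?_
  by_cases hk : k = j
  · subst hk; simp
  · simp [hk]

lemma pU_section (j : ι) (U : Finset ι) {x : ι → α} {t : α} (hx : x j = t) :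
    pU (S.filter (fun y => y j = t)) (Function.update B j {t}) U x = pU S B (insert j U) x := by
  unfold pU
  rw [cnt_section j U hx, NU_update]

lemma sum_Pot_section (j : ι) :
    ∑ t ∈ B j, Pot (S.filter (fun y => y j = t)) (Function.update B j {t})
      = ∑ x ∈ box B, ((1 - pU S B {j} x) / 12 - (1 - pU S B {j} x) ^ 2 / 2
        - ∑ i, (pU S B (insert j {i}) x - pU S B {j} x) ^ 2) := by
  rw [← sum_fiberwise_of_maps_to (s := box B) (t := B j) (g := fun x => x j)
    (fun x hx => (Fintype.mem_piFinset.1 hx) j)]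
  refine sum_congr rfl fun t ht => ?_
  unfold Pot
  rw [box_update ht]
  refine sum_congr rfl fun x hx => ?_
  simp only [pU_section j _ (mem_filter.1 hx).2, insert_empty_eq]

lemma section_dev (hB : ∀ i, (B i).Nonempty) (hS : S ⊆ box B) (hne : S.Nonempty) {i j : ι}
    (hij : i ≠ j) :
    ∑ x ∈ box B, (pU S B (insert j {i}) x - pU S B {j} x) ^ 2
      ≤ ∑ x ∈ box B, (bb S B i x) ^ 2 + 2 * ∑ x ∈ box B, (psi S B j i x) ^ 2
        + 2 / ((#S / #(box B)) ^ 2 * #(box B)) * (∑ x ∈ box B, (bb S B j x) ^ 2)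
          * ∑ x ∈ box B, (bb S B i x) ^ 2 := by
  have hS0 : (0 : ℝ) < #S := by exact_mod_cast hne.card_pos
  have hB0 : (0 : ℝ) < #(box B) := by exact_mod_cast (hne.mono hS).card_pos
  set a : ℝ := #S / #(box B) with ha
  have ha0 : 0 < a := div_pos hS0 hB0
  set H : (ι → α) → ℝ := fun x => pU S B (insert j {i}) x - pU S B {i} x - bb S B j x with hH
  have h1 : ∑ x ∈ box B, bb S B i x * H x = 0 := by
    refine sum_mul_eq_zero hB j _ _ (bb_update hij.symm) fun x _ => ?_
    simp only [hH]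
    have : ∀ s, pU S B {i} (Function.update x j s) = pU S B {i} x :=
      pU_update (by simpa using hij.symm) x
    simp only [this]
    rw [sum_sub_distrib, sum_sub_distrib, bb_tower hB hS, pU_tower hB hS (by simpa using hij.symm)]
    simp
  have h2 := sum_mul_indep hB j (fun x => bb S B i x ^ 2) (fun x => bb S B j x ^ 2)
    (fun x s => by rw [bb_update hij.symm]) (fun x y h => by rw [bb_congr h])
  have h3 : ∑ x ∈ box B, (pU S B (insert j {i}) x - pU S B {j} x) ^ 2
      ≤ ∑ x ∈ box B, (bb S B i x ^ 2 + 2 * (bb S B i x * H x) + 2 * psi S B j i x ^ 2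
        + 2 / a ^ 2 * (bb S B i x ^ 2 * bb S B j x ^ 2)) := by
    refine sum_le_sum fun x _ => ?_
    have e1 : pU S B (insert j {i}) x - pU S B {j} x = bb S B i x + H x := by
      simp only [hH]; unfold bb; ring
    have e2 : H x = psi S B j i x + bb S B i x * bb S B j x / a := by
      simp only [hH]; unfold bb psi; rw [← ha]; field_simp; ring
    have e3 : 2 / a ^ 2 * (bb S B i x ^ 2 * bb S B j x ^ 2)
        = 2 * (bb S B i x * bb S B j x / a) ^ 2 := by ring
    have e4 : H x ^ 2 ≤ 2 * psi S B j i x ^ 2 + 2 * (bb S B i x * bb S B j x / a) ^ 2 := by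
      rw [e2]
      nlinarith [sq_nonneg (psi S B j i x - bb S B i x * bb S B j x / a)]
    rw [e1, e3]
    nlinarith
  rw [sum_add_distrib, sum_add_distrib, sum_add_distrib, ← mul_sum, ← mul_sum, ← mul_sum, h1] at h3
  have h4 : ∑ x ∈ box B, bb S B i x ^ 2 * bb S B j x ^ 2
      = (∑ x ∈ box B, bb S B i x ^ 2) * (∑ x ∈ box B, bb S B j x ^ 2) / #(box B) := by
    rw [← h2]; field_simp
  rw [h4] at h3
  refine h3.trans (le_of_eq ?_)
  field_simp
  ring

lemma sum_cover {G : Finset (Finset ι)} {m σ : ℝ} (hG : Cover G m σ) (j : ι) (c : ι → ℝ)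
    (hc : ∀ i, 0 ≤ c i) :
    σ * ∑ i ∈ univ.erase j, c i ≤ ∑ g ∈ G.filter (fun g => j ∉ g), ∑ i ∈ g, c i := by
  have h1 : ∑ g ∈ G.filter (fun g => j ∉ g), ∑ i ∈ g, c i
      = ∑ i, ∑ g ∈ G, if i ∈ g ∧ j ∉ g then c i else 0 := by
    rw [sum_comm, sum_filter]
    refine sum_congr rfl fun g _ => ?_
    by_cases h : j ∈ g
    · simp [h]
    · simp [h]
  rw [h1, mul_sum]
  calc ∑ i ∈ univ.erase j, σ * c i
      ≤ ∑ i ∈ univ.erase j, ∑ g ∈ G, if i ∈ g ∧ j ∉ g then c i else 0 := by
        refine sum_le_sum fun i hi => ?_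
        rw [sum_ite_const]
        exact mul_le_mul_of_nonneg_right (hG.sep i j (mem_erase.1 hi).1) (hc i)
    _ ≤ _ := sum_le_sum_of_subset_of_nonneg (erase_subset _ _) fun i _ _ =>
        sum_nonneg fun g _ => by
          split_ifs
          · exact hc i
          · exact le_rfl

/-- the deficiency dominates the potential -/
lemma Pot_le [Nonempty ι] {G : Finset (Finset ι)} {m σ : ℝ} (hG : Cover G m σ) (n : ℕ) :
    ∀ (B : ι → Finset α) (S : Finset (ι → α)), #(box B) = n → (∀ i, (B i).Nonempty) →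
      S ⊆ box B → σ / 10 * Pot S B ≤ DS G m S := by
  induction n using Nat.strong_induction_on with
  | _ n ih =>
  intro B S hn hB hS
  have hD : 0 ≤ DS G m S := Dw_nonneg hG fun _ _ => zero_le_one
  have hB0 : (0 : ℝ) < #(box B) := by
    exact_mod_cast (Fintype.piFinset_nonempty.2 hB).card_pos
  have hσ := hG.nonneg
  set a : ℝ := #S / #(box B) with ha
  have ha1 : a ≤ 1 := (div_le_one hB0).2 (by exact_mod_cast card_le_card hS)
  have hW0 : 0 ≤ ∑ i, ∑ x ∈ box B, (bb S B i x) ^ 2 :=
    sum_nonneg fun _ _ => sum_nonneg fun _ _ => sq_nonneg _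
  by_cases hcase : a ≤ 5 / 6 ∨ a = 1
  · have : Pot S B ≤ 0 := by
      rw [Pot_eq, ← ha]
      have : (1 - a) / 12 - (1 - a) ^ 2 / 2 ≤ 0 := by
        rcases hcase with h | h
        · nlinarith
        · rw [h]; norm_num
      nlinarith
    nlinarith
  push Not at hcase
  obtain ⟨ha5, hane⟩ := hcase
  have hS0 : (0 : ℝ) < #S := by
    by_contra h
    have : (#S : ℝ) = 0 := le_antisymm (not_lt.1 h) (Nat.cast_nonneg _)
    rw [ha, this] at ha5; norm_num at ha5
  have hne : S.Nonempty := card_pos.1 (by exact_mod_cast hS0)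
  obtain ⟨j, hj⟩ : ∃ j, 1 < #(B j) := by
    by_contra h
    push Not at h
    have h1 : #(box B) ≤ 1 := by
      rw [Fintype.card_piFinset]
      exact prod_le_one' fun i _ => h i
    have h2 := card_le_card hS
    have h3 := hne.card_pos
    have h4 : #S = #(box B) := by omega
    apply hane
    rw [ha, h4]; exact div_self hB0.ne'
  have hsec := DS_sections (S := S) hG j (B j) (fun x hx => (Fintype.mem_piFinset.1 (hS hx)) j)
  have hIH : σ / 10 * ∑ t ∈ B j, Pot (S.filter (fun y => y j = t)) (Function.update B j {t})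
      ≤ ∑ t ∈ B j, DS G m (S.filter (fun x => x j = t)) := by
    rw [mul_sum]
    refine sum_le_sum fun t ht => ih _ ?_ _ _ rfl ?_ ?_
    · have e1 : (#(box B) : ℝ) = #(B j) * #(box (Function.update B j {t})) := by
        rw [← NU_empty, ← NU_empty, NU_update, NU_insert (notMem_empty j)]
      have e2 : #(box B) = #(B j) * #(box (Function.update B j {t})) := by exact_mod_cast e1
      have e3 : 0 < #(box B) := by exact_mod_cast hB0
      rw [← hn]
      rcases Nat.eq_zero_or_pos #(box (Function.update B j {t})) with h | h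
      · omega
      · nlinarith
    · intro i
      by_cases h : i = j
      · subst h; simp
      · simpa [h] using hB i
    · rw [box_update ht]; exact filter_subset_filter _ hS
  have hgain : σ * ∑ i ∈ univ.erase j, a / 4 * ∑ x ∈ box B, (psi S B j i x) ^ 2
      ≤ ∑ g ∈ G.filter (fun g => j ∉ g), MI S j g := by
    refine (sum_cover hG j _ fun i => ?_).trans (sum_le_sum fun g hg => ?_)
    · exact mul_nonneg (by linarith) (sum_nonneg fun _ _ => sq_nonneg _)
    · exact MI_ge hB hS hne (mem_filter.1 hg).2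
  rw [sum_Pot_section] at hIH
  set V := ∑ x ∈ box B, (bb S B j x) ^ 2 with hV
  set W' := ∑ i ∈ univ.erase j, ∑ x ∈ box B, (bb S B i x) ^ 2 with hW'
  set Ψ := ∑ i ∈ univ.erase j, ∑ x ∈ box B, (psi S B j i x) ^ 2 with hΨ
  have hV0 : 0 ≤ V := sum_nonneg fun _ _ => sq_nonneg _
  have hΨ0 : 0 ≤ Ψ := sum_nonneg fun _ _ => sum_nonneg fun _ _ => sq_nonneg _
  have hWb : W' ≤ #(box B) - #S := bessel hB hS _
  have e1 : ∑ x ∈ box B, ((1 - pU S B {j} x) / 12 - (1 - pU S B {j} x) ^ 2 / 2)
      = #(box B) * ((1 - a) / 12 - (1 - a) ^ 2 / 2) - V / 2 := by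
    have : ∀ x, (1 - pU S B {j} x) / 12 - (1 - pU S B {j} x) ^ 2 / 2
        = ((1 - a) / 12 - (1 - a) ^ 2 / 2) + (1 - a - 1 / 12) * bb S B j x
          - 1 / 2 * bb S B j x ^ 2 := by
      intro x; unfold bb; rw [← ha]; ring
    simp only [this]
    rw [sum_sub_distrib, sum_add_distrib, ← mul_sum, ← mul_sum, sum_bb hB hS, sum_const,
      nsmul_eq_mul]
    ring
  have e2 : ∑ x ∈ box B, ∑ i, (pU S B (insert j {i}) x - pU S B {j} x) ^ 2
      ≤ W' + 2 * Ψ + 2 / (a ^ 2 * #(box B)) * V * W' := by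
    rw [sum_comm, ← add_sum_erase univ _ (mem_univ j)]
    simp only [insert_eq_of_mem (mem_singleton_self j), sub_self, ne_eq, OfNat.ofNat_ne_zero,
      not_false_eq_true, zero_pow, sum_const_zero, zero_add]
    refine (sum_le_sum fun i hi => section_dev hB hS hne (mem_erase.1 hi).1).trans (le_of_eq ?_)
    rw [sum_add_distrib, sum_add_distrib, ← mul_sum, ← mul_sum]
  have e3 : 2 / (a ^ 2 * #(box B)) * V * W' ≤ V / 2 := by
    have hSa : (#S : ℝ) = a * #(box B) := by rw [ha]; field_simp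
    have h1 : W' ≤ (1 - a) * #(box B) := by rw [hSa] at hWb; linarith
    have h2 : 2 / (a ^ 2 * #(box B)) * W' ≤ 1 / 2 := by
      have ha0 : 0 < a := by linarith
      rw [div_mul_eq_mul_div, div_le_div_iff₀ (mul_pos (pow_pos ha0 2) hB0) two_pos]
      have : 4 * (1 - a) ≤ a ^ 2 := by nlinarith
      nlinarith
    nlinarith
  have e4 : Pot S B = #(box B) * ((1 - a) / 12 - (1 - a) ^ 2 / 2) - (V + W') := by
    rw [Pot_eq, ← add_sum_erase univ _ (mem_univ j)]
  rw [sum_sub_distrib, e1] at hIH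
  rw [← mul_sum, ← hΨ] at hgain
  rw [e4]
  have h5 : σ / 10 * (2 * Ψ) ≤ σ * (a / 4 * Ψ) := by
    have : 0 ≤ σ * Ψ := mul_nonneg hσ hΨ0
    nlinarith
  have h6 := mul_le_mul_of_nonneg_left (e2.trans (add_le_add_right e3 _))
    (show 0 ≤ σ / 10 by linarith)
  nlinarith

/-- local linear stability -/
lemma inside [Nonempty ι] {G : Finset (Finset ι)} {m σ : ℝ} (hG : Cover G m σ)
    (hB : ∀ i, (B i).Nonempty) (hS : S ⊆ box B)
    (hκ : ∀ i, ∀ x ∈ box B, (bb S B i x) ^ 2 ≤ (1 / 100000 : ℝ) ^ 2)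
    (hM : (#(box B) : ℝ) - #S ≤ #(box B) / 100000) :
    σ * (#(box B) - #S) ≤ 400 * DS G m S := by
  have h1 := Pot_le hG _ B S rfl hB hS
  have h2 := level_one hB hS hκ hM
  have hB0 : (0 : ℝ) < #(box B) := by
    exact_mod_cast (Fintype.piFinset_nonempty.2 hB).card_pos
  have hle : (#S : ℝ) ≤ #(box B) := by exact_mod_cast card_le_card hS
  have h3 : (#(box B) - #S) / 40 ≤ Pot S B := by
    rw [Pot_eq]
    set a : ℝ := #S / #(box B) with ha
    have hSa : (#S : ℝ) = a * #(box B) := by rw [ha]; field_simp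
    have h4 : 0 ≤ 1 - a := by
      rw [hSa] at hle; nlinarith
    have h5 : 1 - a ≤ 1 / 100000 := by
      rw [hSa] at hM; nlinarith
    have h6 : (1 - a) / 40 + (1 - a) / 20 ≤ (1 - a) / 12 - (1 - a) ^ 2 / 2 := by nlinarith
    have h7 := mul_le_mul_of_nonneg_left h6 hB0.le
    rw [hSa] at h2 ⊢
    nlinarith
  have := mul_le_mul_of_nonneg_left h3 hG.nonneg
  nlinarith

end Pool.Agent.Lib.MP_be7f84_co
end

-- part Pool.Agent.Lib.MP_be7f84_co.Global
section

/-!
Counting lemmas for the global step: if every slab of S is typical and a substantial part of S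
(cut out along one coordinate) is close to a box, then S is dense in its box hull.
-/

open Finset
open scoped symmDiff

set_option linter.unusedSectionVars false

namespace Pool.Agent.Lib.MP_be7f84_co

variable {ι α : Type*} [Fintype ι] [DecidableEq ι] [DecidableEq α]

lemma fiber_le {B : ι → Finset α} {P T : Finset (ι → α)} (hP : P ⊆ box B) (j : ι) (s : α)
    (h : ∀ x ∈ P, Function.update x j s ∈ T) : (#P : ℝ) ≤ #(B j) * #T := by
  have := card_le_mul_card_image_of_maps_to (f := fun x => Function.update x j s) h #(B j)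
    (fun b _ => card_le_card_of_injOn (fun x => x j)
      (fun x hx => (Fintype.mem_piFinset.1 (hP (mem_filter.1 hx).1)) j)
      (fun x hx y hy hxy => by
        have h1 := (mem_filter.1 hx).2
        have h2 := (mem_filter.1 hy).2
        funext k
        by_cases hk : k = j
        · subst hk; exact hxy
        · have := congrFun (h1.trans h2.symm) k
          simpa [hk] using this))
  exact_mod_cast this

lemma card_good {S P : Finset (ι → α)} (hP : P ⊆ S) (j : ι) (s : α) :
    (#P : ℝ) - #(S.filter (fun x => Function.update x j s ∉ S))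
      ≤ #(P.filter (fun x => Function.update x j s ∈ S)) := by
  have h1 := card_filter_add_card_filter_not (s := P) (fun x => Function.update x j s ∈ S)
  have h2 : #(P.filter (fun x => Function.update x j s ∉ S))
      ≤ #(S.filter (fun x => Function.update x j s ∉ S)) :=
    card_le_card (filter_subset_filter _ hP)
  have h1' : (#(P.filter (fun x => Function.update x j s ∈ S)) : ℝ)
      + #(P.filter (fun x => Function.update x j s ∉ S)) = #P := by exact_mod_cast h1
  have h2' : (#(P.filter (fun x => Function.update x j s ∉ S)) : ℝ)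
      ≤ #(S.filter (fun x => Function.update x j s ∉ S)) := by exact_mod_cast h2
  linarith

lemma bb_bound {B : ι → Finset α} {S : Finset (ι → α)} (hB : ∀ i, (B i).Nonempty)
    (hS : S ⊆ box B) {κ : ℝ} (hκ0 : 0 ≤ κ)
    (htyp : ∀ j, ∀ s ∈ B j, (#(S.filter (fun x => Function.update x j s ∉ S)) : ℝ) ≤ κ * #S)
    (hM : (#(box B) : ℝ) - #S ≤ #(box B) * κ) (i : ι) (x : ι → α) (hx : x ∈ box B) :
    (bb S B i x) ^ 2 ≤ κ ^ 2 := by
  have hB0 : (0 : ℝ) < #(box B) := by
    exact_mod_cast (Fintype.piFinset_nonempty.2 hB).card_pos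
  have hle : (#S : ℝ) ≤ #(box B) := by exact_mod_cast card_le_card hS
  have hxi : x i ∈ B i := (Fintype.mem_piFinset.1 hx) i
  have h1 := card_good (S := S) (P := S) Subset.rfl i (x i)
  have h2 := fiber_le (B := B) (P := S.filter (fun y => Function.update y i (x i) ∈ S))
    (T := S.filter (fun y => agree {i} x y)) ((filter_subset _ _).trans hS) i (x i)
    (fun y hy => mem_filter.2 ⟨(mem_filter.1 hy).2, by simp [agree_singleton]⟩)
  have h3 := htyp i _ hxi
  rw [← cnt_eq_card] at h2
  have n2 := NU_pos hB {i}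
  have n4 : (#(box B) : ℝ) = #(B i) * NU B {i} := by
    rw [← NU_empty, NU_insert (notMem_empty i), insert_empty_eq]
  have h4 : bb S B i x = (#(B i) * cnt S {i} x - #S) / #(box B) := by
    have n3 : (0 : ℝ) < #(B i) := by exact_mod_cast (hB i).card_pos
    unfold bb pU
    rw [n4]; field_simp
  have h5 : -κ ≤ bb S B i x := by
    rw [h4, le_div_iff₀ hB0]; nlinarith
  have h6 : bb S B i x ≤ κ := by
    have := pU_le_one hB hS hx {i}
    unfold bb
    have : 1 - κ ≤ (#S : ℝ) / #(box B) := by rw [le_div_iff₀ hB0]; nlinarith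
    linarith
  exact sq_le_sq' h5 h6

lemma exists_balanced (S : Finset (ι → α)) (i : ι)
    (hat : ∀ s, 4 * #(S.filter (fun x => x i = s)) ≤ 3 * #S) :
    ∃ T : Finset α, #S ≤ 4 * #(S.filter (fun x => x i ∈ T)) ∧
      4 * #(S.filter (fun x => x i ∈ T)) ≤ 3 * #S := by
  by_cases h : ∃ s, #S ≤ 4 * #(S.filter (fun x => x i = s))
  · obtain ⟨s, hs⟩ := h
    refine ⟨{s}, ?_, ?_⟩
    · simpa using hs
    · simpa using hat s
  push Not at h
  have key : ∀ R : Finset α, #S ≤ 4 * #(S.filter (fun x => x i ∈ R)) →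
      ∃ T : Finset α, #S ≤ 4 * #(S.filter (fun x => x i ∈ T)) ∧
        4 * #(S.filter (fun x => x i ∈ T)) ≤ 3 * #S := by
    intro R
    induction R using Finset.induction_on with
    | empty => intro hR; exact ⟨∅, hR, by simp⟩
    | insert s R _ ih =>
      intro hR
      by_cases h' : #S ≤ 4 * #(S.filter (fun x => x i ∈ R))
      · exact ih h'
      · refine ⟨insert s R, hR, ?_⟩
        have h1 : #(S.filter (fun x => x i ∈ insert s R))
            ≤ #(S.filter (fun x => x i = s)) + #(S.filter (fun x => x i ∈ R)) := by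
          refine le_trans (card_le_card ?_) (card_union_le _ _)
          intro x hx
          simp only [mem_filter, mem_insert, mem_union] at hx ⊢
          tauto
        have := h s
        omega
  refine key (S.image (fun x => x i)) ?_
  rw [filter_true_of_mem (fun x hx => mem_image_of_mem _ hx)]
  omega

lemma atom_bound (S : Finset (ι → α)) (i : ι) {s t : α} (hts : t ≠ s)
    (ht : (#(S.filter (fun x => Function.update x i t ∉ S)) : ℝ) ≤ 1 / 2 * #S) :
    4 * #(S.filter (fun x => x i = s)) ≤ 3 * #S := by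
  have h1 := card_good (S := S) (P := S.filter (fun x => x i = s)) (filter_subset _ _) i t
  have h2 : #((S.filter (fun x => x i = s)).filter (fun x => Function.update x i t ∈ S))
      ≤ #(S.filter (fun x => ¬ x i = s)) := by
    refine card_le_card_of_injOn (fun x => Function.update x i t) (fun x hx => ?_)
      (fun x hx y hy hxy => ?_)
    · have := mem_filter.1 hx
      exact mem_filter.2 ⟨this.2, by simpa using hts⟩
    · have h1 := (mem_filter.1 (mem_filter.1 hx).1).2
      have h2 := (mem_filter.1 (mem_filter.1 hy).1).2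
      funext k
      by_cases hk : k = i
      · subst hk; exact h1.trans h2.symm
      · have := congrFun hxy k
        simpa [hk] using this
  have h3 := card_filter_add_card_filter_not (s := S) (fun x => x i = s)
  have h2' : (#((S.filter (fun x => x i = s)).filter (fun x => Function.update x i t ∈ S)) : ℝ)
      ≤ #(S.filter (fun x => ¬ x i = s)) := by exact_mod_cast h2
  have h3' : (#(S.filter (fun x => x i = s)) : ℝ) + #(S.filter (fun x => ¬ x i = s)) = #S := by
    exact_mod_cast h3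
  have : (4 : ℝ) * #(S.filter (fun x => x i = s)) ≤ 3 * #S := by linarith
  exact_mod_cast this

lemma dense_of_part {B B' : ι → Finset α} {S : Finset (ι → α)} (i : ι) (p : α → Prop)
    [DecidablePred p]
    (htyp : ∀ j, ∀ s ∈ B j,
      (#(S.filter (fun x => Function.update x j s ∉ S)) : ℝ) ≤ 1 / 1000000 * #S)
    (hne : S.Nonempty) (hbig : #S ≤ 4 * #(S.filter (fun x => p (x i))))
    (hcl : (#((S.filter (fun x => p (x i))) ∆ box B') : ℝ)
      ≤ 1 / 1000000 * #(S.filter (fun x => p (x i)))) :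
    (#(box B) : ℝ) - #S ≤ #(box B) / 100000 := by
  set S0 := S.filter (fun x => p (x i)) with hS0
  have hS : (0 : ℝ) < #S := by exact_mod_cast hne.card_pos
  have hbig' : (#S : ℝ) ≤ 4 * #S0 := by exact_mod_cast hbig
  have hn0 : (0 : ℝ) < #S0 := by linarith
  have c1 : (#(S0 \ box B') : ℝ) ≤ 1 / 1000000 * #S0 :=
    le_trans (by exact_mod_cast card_le_card symmDiff_subset_sdiff) hcl
  have c2 : (#(box B' \ S0) : ℝ) ≤ 1 / 1000000 * #S0 :=
    le_trans (by exact_mod_cast card_le_card symmDiff_subset_sdiff') hcl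
  have c3 : (#(S0 \ box B') : ℝ) + #(S0 ∩ box B') = #S0 := by
    exact_mod_cast card_sdiff_add_card_inter S0 (box B')
  have c4 : (#(box B') : ℝ) ≤ #(box B' \ S0) + #S0 := by
    exact_mod_cast card_le_card_sdiff_add_card
  have hB' : ∀ j, (B' j).Nonempty := by
    have : (0 : ℝ) < #(S0 ∩ box B') := by linarith
    have h : (S0 ∩ box B').Nonempty := card_pos.1 (by exact_mod_cast this)
    exact Fintype.piFinset_nonempty.1 (h.mono inter_subset_right)
  have hB'0 : ∀ j, (0 : ℝ) < #(B' j) := fun j => by exact_mod_cast (hB' j).card_pos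
  have hgood : ∀ j, ∀ s ∈ B j, (1 - 5 / 1000000 : ℝ) * #S0
      ≤ #((S0 ∩ box B').filter (fun x => Function.update x j s ∈ S)) := by
    intro j s hs
    have h1 := card_good (S := S) (P := S0 ∩ box B')
      (inter_subset_left.trans (filter_subset _ _)) j s
    have h2 := htyp j s hs
    linarith
  have hi : #(B i) * ((1 - 5 / 1000000 : ℝ) * #S0) ≤ #(B' i) * #S := by
    have h1 : ∑ _s ∈ B i, (1 - 5 / 1000000 : ℝ) * #S0
        ≤ ∑ s ∈ B i, (#(B' i) : ℝ) * #(S.filter (fun y => y i = s)) :=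
      sum_le_sum fun s hs => (hgood i s hs).trans
        (fiber_le ((filter_subset _ _).trans inter_subset_right) i s
          (fun x hx => mem_filter.2 ⟨(mem_filter.1 hx).2, by simp⟩))
    rw [sum_const, nsmul_eq_mul, ← mul_sum] at h1
    refine h1.trans (mul_le_mul_of_nonneg_left ?_ (hB'0 i).le)
    have h2 := sum_card_fiberwise_eq_card_filter S (B i) (fun y => y i)
    have h3 : #(S.filter (fun y => y i ∈ B i)) ≤ #S := card_filter_le _ _
    exact_mod_cast h2.le.trans h3
  set T : ι → Finset (ι → α) := fun j =>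
    (S0 \ box B').filter (fun y => y j ∉ B' j ∧ ∀ k, k ≠ j → y k ∈ B' k) with hT
  have hTsum : ∑ j ∈ univ.erase i, (#(T j) : ℝ) ≤ 1 / 1000000 * #S0 := by
    refine le_trans ?_ c1
    have h1 : #((univ.erase i).biUnion T) = ∑ j ∈ univ.erase i, #(T j) := by
      refine card_biUnion fun j _ k _ hjk => ?_
      refine disjoint_left.2 fun y hy hy' => ?_
      exact (mem_filter.1 hy).2.1 ((mem_filter.1 hy').2.2 j hjk)
    have h2 : #((univ.erase i).biUnion T) ≤ #(S0 \ box B') :=
      card_le_card (biUnion_subset.2 fun j _ => filter_subset _ _)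
    exact_mod_cast h1.symm.le.trans h2
  have hj : ∀ j ∈ univ.erase i, (#(B j \ B' j) : ℝ) / #(B' j) * ((1 - 5 / 1000000 : ℝ) * #S0)
      ≤ #(T j) := by
    intro j hj
    have hji : j ≠ i := (mem_erase.1 hj).1
    have h1 : ∑ _s ∈ B j \ B' j, (1 - 5 / 1000000 : ℝ) * #S0
        ≤ ∑ s ∈ B j \ B' j, (#(B' j) : ℝ) * #((T j).filter (fun y => y j = s)) := by
      refine sum_le_sum fun s hs => (hgood j s (mem_sdiff.1 hs).1).trans
        (fiber_le ((filter_subset _ _).trans inter_subset_right) j s (fun x hx => ?_))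
      have hs' := (mem_sdiff.1 hs).2
      obtain ⟨hx1, hx2⟩ := mem_filter.1 hx
      obtain ⟨hx3, hx4⟩ := mem_inter.1 hx1
      refine mem_filter.2 ⟨mem_filter.2 ⟨mem_sdiff.2 ⟨mem_filter.2 ⟨hx2, ?_⟩, ?_⟩, ?_, ?_⟩, by simp⟩
      · rw [Function.update_of_ne hji.symm]; exact (mem_filter.1 hx3).2
      · intro h
        exact hs' (by simpa using (Fintype.mem_piFinset.1 h) j)
      · simpa using hs'
      · intro k hk
        rw [Function.update_of_ne hk]
        exact (Fintype.mem_piFinset.1 hx4) k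
    rw [sum_const, nsmul_eq_mul, ← mul_sum] at h1
    have h2 := sum_card_fiberwise_eq_card_filter (T j) (B j \ B' j) (fun y => y j)
    have h3 : #((T j).filter (fun y => y j ∈ B j \ B' j)) ≤ #(T j) := card_filter_le _ _
    have h4 : ∑ s ∈ B j \ B' j, (#((T j).filter (fun y => y j = s)) : ℝ) ≤ #(T j) := by
      exact_mod_cast h2.le.trans h3
    rw [div_mul_eq_mul_div, div_le_iff₀ (hB'0 j)]
    have := mul_le_mul_of_nonneg_left h4 (hB'0 j).le
    linarith
  set r : ι → ℝ := fun j => (#(B j \ B' j) : ℝ) / #(B' j) with hr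
  have hr0 : ∀ j, 0 ≤ r j := fun j => by simp only [hr]; positivity
  have hrsum : ∑ j ∈ univ.erase i, r j ≤ 2 / 1000000 := by
    have h1 := (sum_le_sum hj).trans hTsum
    rw [← sum_mul] at h1
    have h2 : 0 ≤ ∑ j ∈ univ.erase i, r j := sum_nonneg fun j _ => hr0 j
    change (∑ j ∈ univ.erase i, r j) * _ ≤ _ at h1
    by_contra h
    push Not at h
    nlinarith
  have hprod : ∏ j ∈ univ.erase i, (#(B j) : ℝ)
      ≤ (∏ j ∈ univ.erase i, (#(B' j) : ℝ)) * Real.exp (2 / 1000000) := by
    have h1 : ∏ j ∈ univ.erase i, (#(B j) : ℝ)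
        ≤ ∏ j ∈ univ.erase i, ((#(B' j) : ℝ) * (1 + r j)) := by
      refine prod_le_prod (fun j _ => Nat.cast_nonneg _) fun j _ => ?_
      have h2 : (#(B j) : ℝ) ≤ #(B j \ B' j) + #(B' j) := by
        exact_mod_cast card_le_card_sdiff_add_card
      have h3 : (#(B' j) : ℝ) * (1 + r j) = #(B j \ B' j) + #(B' j) := by
        simp only [hr]
        have := (hB'0 j).ne'
        field_simp
        ring
      linarith
    rw [prod_mul_distrib] at h1
    refine h1.trans (mul_le_mul_of_nonneg_left ?_ (prod_nonneg fun j _ => Nat.cast_nonneg _))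
    exact (Real.prod_one_add_le_exp_sum _ hr0).trans (Real.exp_le_exp.2 hrsum)
  have hexp : Real.exp (2 / 1000000) ≤ 1 + 3 / 1000000 := by
    have h1 := Real.add_one_le_exp (-(2 / 1000000 : ℝ))
    have h2 : Real.exp (2 / 1000000) * Real.exp (-(2 / 1000000 : ℝ)) = 1 := by
      rw [← Real.exp_add]; simp
    have h3 := Real.exp_pos (2 / 1000000 : ℝ)
    nlinarith
  have e1 : (#(box B) : ℝ) = #(B i) * ∏ j ∈ univ.erase i, (#(B j) : ℝ) := by
    rw [Fintype.card_piFinset, ← mul_prod_erase univ _ (mem_univ i)]; push_cast; rfl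
  have e2 : (#(box B') : ℝ) = #(B' i) * ∏ j ∈ univ.erase i, (#(B' j) : ℝ) := by
    rw [Fintype.card_piFinset, ← mul_prod_erase univ _ (mem_univ i)]; push_cast; rfl
  set P := ∏ j ∈ univ.erase i, (#(B j) : ℝ) with hP
  set P' := ∏ j ∈ univ.erase i, (#(B' j) : ℝ) with hP'
  have hP'0 : 0 ≤ P' := prod_nonneg fun j _ => Nat.cast_nonneg _
  have hBi : (0 : ℝ) ≤ #(B i) := Nat.cast_nonneg _
  have f1 : (#(B' i) : ℝ) * P' ≤ (1 + 1 / 1000000) * #S0 := by linarith
  have f2 : (#(B' i) : ℝ) * (#(B i) * P' * (1 - 5 / 1000000))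
      ≤ #(B' i) * ((1 + 1 / 1000000) * #S) := by
    have := mul_le_mul_of_nonneg_left f1 hBi
    nlinarith
  have f3 := le_of_mul_le_mul_left f2 (hB'0 i)
  have f4 : (#(box B) : ℝ) ≤ #(B i) * P' * (1 + 3 / 1000000) := by
    rw [e1, mul_assoc]
    exact mul_le_mul_of_nonneg_left
      (hprod.trans (mul_le_mul_of_nonneg_left hexp hP'0)) hBi
  have f5 : 0 ≤ (#(B i) : ℝ) * P' := mul_nonneg hBi hP'0
  nlinarith

end Pool.Agent.Lib.MP_be7f84_co
end

-- part Pool.Agent.Lib.MP_be7f84_co.Main
section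

/-!
The main induction: dimension-free linear stability in terms of the entropy deficiency.
-/

open Finset
open scoped symmDiff

set_option linter.unusedSectionVars false

namespace Pool.Agent.Lib.MP_be7f84_co

variable {ι α : Type*} [Fintype ι] [DecidableEq ι] [DecidableEq α]

lemma main_small [Nonempty ι] {G : Finset (Finset ι)} {m σ : ℝ} (hG : Cover G m σ)
    (hσ : 0 < σ) (n : ℕ) : ∀ S : Finset (ι → α), #S = n →
      DS G m S ≤ σ * (1 / 6000000000000) * #S →
      ∃ B : ι → Finset α, σ * #(S ∆ box B) ≤ 6000000 * DS G m S := by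
  induction n using Nat.strong_induction_on with
  | _ n ih =>
  intro S hn hD
  have hDn : ∀ A : Finset (ι → α), 0 ≤ DS G m A := fun A => Dw_nonneg hG fun _ _ => zero_le_one
  rcases S.eq_empty_or_nonempty with hS | hne
  · refine ⟨fun _ => ∅, ?_⟩
    have : box (fun _ : ι => (∅ : Finset α)) = ∅ := Fintype.piFinset_empty
    rw [this, hS, symmDiff_self]
    have := hDn ∅
    simp only [bot_eq_empty, card_empty, Nat.cast_zero, mul_zero]
    linarith
  have hS0 : (0 : ℝ) < #S := by exact_mod_cast hne.card_pos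
  by_cases hcase : ∃ i, ∃ t ∈ S.image (fun x => x i),
      1 / 1000000 * (#S : ℝ) ≤ #(S.filter (fun x => Function.update x i t ∉ S))
  · obtain ⟨i, t, ht, hF⟩ := hcase
    set b := S.filter (fun x => x i = t) with hb
    set A := S.filter (fun x => ¬ x i = t) with hA
    set Fl : ℝ := (#(S.filter (fun x => Function.update x i t ∉ S)) : ℝ) with hFl
    have hbA : #b + #A = #S := card_filter_add_card_filter_not _
    have hbA' : (#b : ℝ) + #A = #S := by exact_mod_cast hbA
    have hb0 : 0 < #b := by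
      obtain ⟨x, hx, hxt⟩ := mem_image.1 ht
      exact card_pos.2 ⟨x, mem_filter.2 ⟨hx, hxt⟩⟩
    have hb0' : (0 : ℝ) < #b := by exact_mod_cast hb0
    have h1 := DS_remove (S := S) hG i t one_pos le_rfl
    rw [← hb, ← hA, ← hFl, sub_self, zero_mul, zero_add, mul_one, one_mul, hbA'] at h1
    have h2 : (#b : ℝ) * (1 / 1000000) ≤ #b * Fl / #S := by
      rw [le_div_iff₀ hS0]; nlinarith
    have h3 : (#b : ℝ) * (1 / 1000000) ≤ (1 / 6000000000000) * #S := by
      have := (mul_le_mul_of_nonneg_left h2 hσ.le).trans (h1.trans hD)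
      rw [mul_assoc] at this
      exact le_of_mul_le_mul_left this hσ
    have hA0 : (#S : ℝ) ≤ 2 * #A := by linarith
    have hA1 : (0 : ℝ) < #A := by linarith
    have h4 := DS_remove (S := S) hG i t (θ := #b / #A) (div_pos hb0' hA1)
      ((div_le_one hA1).2 (by linarith))
    rw [← hb, ← hA, ← hFl] at h4
    have h5 : (#b : ℝ) * (1 / 2000000) ≤ #b * (#b / #A) * Fl / (#b + #b / #A * #A) := by
      have e : (#b : ℝ) * (#b / #A) * Fl / (#b + #b / #A * #A) = #b * (Fl / (2 * #A)) := by
        field_simp; ring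
      rw [e]
      refine mul_le_mul_of_nonneg_left ?_ hb0'.le
      rw [le_div_iff₀ (by positivity)]; linarith
    have h6 : DS G m A ≤ DS G m S := by
      have := DS_split (S := S) hG i (fun s => s = t)
      have := hDn b
      linarith
    have h7 : (#b : ℝ) / #A * DS G m A ≤ σ * (#b * (2 / 6000000000000)) := by
      have : DS G m A ≤ σ * (2 / 6000000000000) * #A := by nlinarith
      calc (#b : ℝ) / #A * DS G m A ≤ #b / #A * (σ * (2 / 6000000000000) * #A) :=
            mul_le_mul_of_nonneg_left this (by positivity)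
        _ = _ := by field_simp
    have h8 := mul_le_mul_of_nonneg_left h5 hσ.le
    have hσb : 0 < σ * #b := mul_pos hσ hb0'
    have h9 : DS G m A + σ * #b / 6000000 ≤ DS G m S := by nlinarith
    obtain ⟨B, hB⟩ := ih (#A) (by omega) A rfl (by
      have : σ * (1 / 6000000000000) * #S = σ * (1 / 6000000000000) * #A
        + σ * #b / 6000000000000 := by rw [← hbA']; ring
      linarith)
    refine ⟨B, ?_⟩
    have h10 : #(S ∆ box B) ≤ #(A ∆ box B) + #b := by
      refine le_trans (card_le_card ?_) (card_union_le _ _)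
      intro x hx
      simp only [mem_union, mem_symmDiff, hA, hb, mem_filter] at hx ⊢
      tauto
    have h11 : (#(S ∆ box B) : ℝ) ≤ #(A ∆ box B) + #b := by exact_mod_cast h10
    have h12 := mul_le_mul_of_nonneg_left h11 hσ.le
    linarith
  push Not at hcase
  set B : ι → Finset α := fun i => S.image (fun x => x i) with hBdef
  have hB : ∀ i, (B i).Nonempty := fun i => hne.image _
  have hSB : S ⊆ box B := fun x hx =>
    Fintype.mem_piFinset.2 fun i => mem_image_of_mem (fun x => x i) hx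
  have htyp : ∀ j, ∀ s ∈ B j,
      (#(S.filter (fun x => Function.update x j s ∉ S)) : ℝ) ≤ 1 / 1000000 * #S :=
    fun j s hs => (hcase j s hs).le
  refine ⟨B, ?_⟩
  rw [symmDiff_of_le hSB, card_sdiff_real hSB]
  have hM : (#(box B) : ℝ) - #S ≤ #(box B) / 100000 := by
    by_cases h : ∃ i, 1 < #(B i)
    · obtain ⟨i, hi⟩ := h
      obtain ⟨T, hT1, hT2⟩ := exists_balanced S i (fun s => by
        obtain ⟨t, ht, hts⟩ := exists_mem_ne hi s
        exact atom_bound S i hts ((htyp i t ht).trans (by linarith)))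
      have hsp := DS_split (S := S) hG i (fun s => s ∈ T)
      have hc : #(S.filter (fun x => x i ∈ T)) + #(S.filter (fun x => ¬ x i ∈ T)) = #S :=
        card_filter_add_card_filter_not _
      have hc' : (#(S.filter (fun x => x i ∈ T)) : ℝ) + #(S.filter (fun x => ¬ x i ∈ T)) = #S := by
        exact_mod_cast hc
      have hpos := hne.card_pos
      have fin : ∀ (p : α → Prop) [DecidablePred p], #S ≤ 4 * #(S.filter (fun x => p (x i))) →
          #(S.filter (fun x => p (x i))) < n →
          DS G m (S.filter (fun x => p (x i)))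
            ≤ σ * (1 / 6000000000000) * #(S.filter (fun x => p (x i))) →
          (#(box B) : ℝ) - #S ≤ #(box B) / 100000 := by
        intro p _ h1 h2 h3
        obtain ⟨B', hB'⟩ := ih _ h2 _ rfl h3
        refine dense_of_part (B' := B') i p htyp hne h1 ?_
        refine le_of_mul_le_mul_left ?_ hσ
        linarith
      by_cases h1 : DS G m (S.filter (fun x => x i ∈ T))
          ≤ σ * (1 / 6000000000000) * #(S.filter (fun x => x i ∈ T))
      · exact fin (fun s => s ∈ T) hT1 (by omega) h1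
      · refine fin (fun s => ¬ s ∈ T) (by omega) (by omega) ?_
        rw [← hc'] at hD
        linarith
    · push Not at h
      have h1 : #(box B) ≤ 1 := by
        rw [Fintype.card_piFinset]
        exact prod_le_one' fun i _ => h i
      have h2 := hne.card_pos
      have h3 : (#(box B) : ℝ) ≤ #S := by exact_mod_cast h1.trans h2
      have h4 : (0 : ℝ) ≤ #(box B) := Nat.cast_nonneg _
      linarith
  have h := inside hG hB hSB
    (bb_bound hB hSB (by norm_num) (fun j s hs => (htyp j s hs).trans (by linarith))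
      (by linarith)) hM
  have := hDn S
  linarith

/-- dimension-free linear stability in terms of the entropy deficiency -/
theorem main_entropy [Nonempty ι] {G : Finset (Finset ι)} {m σ : ℝ} (hG : Cover G m σ)
    (hσ : 0 < σ) (S : Finset (ι → α)) :
    ∃ B : ι → Finset α, σ * #(S ∆ box B) ≤ 6000000000000 * DS G m S := by
  have hDn : 0 ≤ DS G m S := Dw_nonneg hG fun _ _ => zero_le_one
  by_cases h : DS G m S ≤ σ * (1 / 6000000000000) * #S
  · obtain ⟨B, hB⟩ := main_small hG hσ _ S rfl h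
    exact ⟨B, by linarith⟩
  · refine ⟨fun _ => ∅, ?_⟩
    have : box (fun _ : ι => (∅ : Finset α)) = ∅ := Fintype.piFinset_empty
    rw [this, ← bot_eq_empty, symmDiff_bot]
    linarith

lemma sum_inv_cnt (S : Finset (ι → α)) (g : Finset ι) :
    ∑ x ∈ S, 1 / cnt S g x = #(S.image (fun (x : ι → α) (i : g) => x i)) := by
  rw [← sum_fiberwise_of_maps_to (s := S) (t := S.image (fun (x : ι → α) (i : g) => x i))
    (g := fun (x : ι → α) (i : g) => x i) (fun x hx => mem_image_of_mem _ hx), card_eq_sum_ones]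
  push_cast
  refine sum_congr rfl fun c hc => ?_
  have h1 : ∀ x ∈ S.filter (fun (x : ι → α) => (fun (i : g) => x i) = c),
      1 / cnt S g x = 1 / (#(S.filter (fun (x : ι → α) => (fun (i : g) => x i) = c)) : ℝ) := by
    intro x hx
    rw [cnt_eq_card]
    congr 3
    refine filter_congr fun y _ => ?_
    rw [← (mem_filter.1 hx).2]
    constructor
    · intro h; funext i; exact (h i i.2).symm
    · intro h i hi; exact (congrFun h ⟨i, hi⟩).symm
  rw [sum_congr rfl h1, sum_const, nsmul_eq_mul]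
  obtain ⟨x, hx, hxc⟩ := mem_image.1 hc
  have : 0 < #(S.filter (fun (x : ι → α) => (fun (i : g) => x i) = c)) :=
    card_pos.2 ⟨x, mem_filter.2 ⟨hx, hxc⟩⟩
  have : (0 : ℝ) < #(S.filter (fun (x : ι → α) => (fun (i : g) => x i) = c)) := by
    exact_mod_cast this
  field_simp

lemma entropy_le_log_proj (S : Finset (ι → α)) (hne : S.Nonempty) (g : Finset ι) :
    LL S (fun _ => 1) ∅ - LL S (fun _ => 1) g
      ≤ #S * Real.log (#(S.image (fun (x : ι → α) (i : g) => x i))) := by
  set P : ℝ := (#(S.image (fun (x : ι → α) (i : g) => x i)) : ℝ) with hP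
  have hP0 : 0 < P := by
    rw [hP]; exact_mod_cast (hne.image _).card_pos
  have hS0 : (0 : ℝ) < #S := by exact_mod_cast hne.card_pos
  have key := gibbs (S := S) (w := fun _ => 1) (fun _ _ => zero_le_one) g (fun _ => #S / P)
    (fun _ _ _ => div_pos hS0 hP0)
  have h1 : ∑ x ∈ S, 1 * ((#S / P) / mass S (fun _ => 1) g x) = #S := by
    have : ∑ x ∈ S, 1 * ((#S / P) / mass S (fun _ => 1) g x)
        = (#S / P) * ∑ x ∈ S, 1 / cnt S g x := by
      rw [mul_sum]; refine sum_congr rfl fun x _ => ?_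
      unfold cnt; ring
    rw [this, sum_inv_cnt, ← hP]; field_simp
  have h2 : ∑ x ∈ S, 1 * (Real.log (#S / P) - Real.log (mass S (fun _ => 1) g x))
      = LL S (fun _ => 1) ∅ - LL S (fun _ => 1) g - #S * Real.log P := by
    unfold LL
    rw [Real.log_div hS0.ne' hP0.ne']
    simp only [mass_empty, one_mul, sum_sub_distrib, sum_const, nsmul_eq_mul, mul_one]
    ring
  rw [h1, h2] at key
  simp only [sum_const, nsmul_eq_mul, mul_one] at key
  linarith

lemma DS_le_proj (G : Finset (Finset ι)) (m : ℝ) (S : Finset (ι → α)) (hne : S.Nonempty) :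
    DS G m S ≤ #S * (∑ g ∈ G, Real.log (#(S.image (fun (x : ι → α) (i : g) => x i)))
      - m * Real.log (#S)) := by
  have h1 := sum_le_sum fun g (_ : g ∈ G) => entropy_le_log_proj S hne g
  have h2 : LL S (fun _ => 1) univ = 0 := by
    unfold LL
    refine sum_eq_zero fun x hx => ?_
    rw [mass_univ hx]; simp
  have h3 : LL S (fun _ => 1) ∅ = #S * Real.log (#S) := by
    unfold LL
    simp [mass_empty]
  unfold DS Dw
  rw [← mul_sum] at h1
  rw [h2, sub_zero]
  nth_rewrite 2 [h3]
  linarith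

/-- dimension-free stability of the Uniform Cover inequality, general form -/
theorem stability [Nonempty ι] {G : Finset (Finset ι)} {m σ : ℝ} (hG : Cover G m σ)
    (hσ : 0 < σ) (hσm : σ ≤ m) {ε : ℝ} (hε : 0 ≤ ε) (S : Finset (ι → α))
    (h : (1 - ε) * (∏ g ∈ G, (#(S.image (fun (x : ι → α) (i : g) => x i)) : ℝ)) ^ (1 / m) ≤ #S) :
    ∃ B : ι → Finset α, (#(S ∆ box B) : ℝ) ≤ 12000000000000 * (m / σ) * ε * #S := by
  have hm : 0 < m := hσ.trans_le hσm
  have hρ : 1 ≤ m / σ := (one_le_div hσ).2 hσm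
  have hempty : box (fun _ : ι => (∅ : Finset α)) = ∅ := Fintype.piFinset_empty
  have hS0 : (0 : ℝ) ≤ #S := Nat.cast_nonneg _
  by_cases hε2 : 1 / 2 ≤ ε
  · refine ⟨fun _ => ∅, ?_⟩
    rw [hempty, ← bot_eq_empty, symmDiff_bot]
    have : 1 ≤ 12000000000000 * (m / σ) * ε := by nlinarith
    nlinarith
  push Not at hε2
  rcases S.eq_empty_or_nonempty with hS | hne
  · refine ⟨fun _ => ∅, ?_⟩
    rw [hempty, hS]; simp
  have hS1 : (0 : ℝ) < #S := by exact_mod_cast hne.card_pos
  obtain ⟨B, hB⟩ := main_entropy hG hσ S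
  refine ⟨B, ?_⟩
  have hpos : ∀ g ∈ G, (0 : ℝ) < #(S.image (fun (x : ι → α) (i : g) => x i)) := fun g _ => by
    exact_mod_cast (hne.image _).card_pos
  have hP : 0 < ∏ g ∈ G, (#(S.image (fun (x : ι → α) (i : g) => x i)) : ℝ) := prod_pos hpos
  have h1 := Real.log_le_log (mul_pos (by linarith) (Real.rpow_pos_of_pos hP _)) h
  rw [Real.log_mul (by linarith) (Real.rpow_pos_of_pos hP _).ne', Real.log_rpow hP,
    Real.log_prod (fun g hg => (hpos g hg).ne')] at h1
  have h2 : -(2 * ε) ≤ Real.log (1 - ε) := by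
    have h3 := Real.one_sub_inv_le_log_of_pos (show 0 < 1 - ε by linarith)
    have h4 : (1 - ε)⁻¹ ≤ 1 + 2 * ε := by
      rw [inv_le_iff_one_le_mul₀ (by linarith)]; nlinarith
    linarith
  have h3 := DS_le_proj G m S hne
  set L := ∑ g ∈ G, Real.log (#(S.image (fun (x : ι → α) (i : g) => x i))) with hL
  have h4 : L - m * Real.log (#S) ≤ 2 * m * ε := by
    have h5 := mul_le_mul_of_nonneg_left h1 hm.le
    have h6 : m * (Real.log (1 - ε) + 1 / m * L) = m * Real.log (1 - ε) + L := by field_simp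
    nlinarith
  have h5 := h3.trans (mul_le_mul_of_nonneg_left h4 hS0)
  have h6 : 12000000000000 * (m / σ) * ε * #S = (6000000000000 * (#S * (2 * m * ε))) / σ := by
    field_simp; ring
  rw [h6, le_div_iff₀ hσ]
  linarith

end Pool.Agent.Lib.MP_be7f84_co
end
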